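import Pool.Agent.H75.CA.CGb

/-! CG: `E_i` is stationary in `B_β` if `i` is not in `A_β`, otherwise nonstationary. -/

set_option linter.unusedVariables false

open Ordinal Order Set
open scoped ZFSet

namespace CAA.H75

open SF CAA

/-- the second part: the generic club -/
theorem cg_two (hPC : T_PC) (hPG : T_PG) (hCF : T_CF) : ∀ D : Dat, D.Ok → ∀ G, D.Gn G →
    ∀ β < D.κ, ∀ i < D.κ, i.toZFSet ∈ D.A G β → (⋃₀ D.F G i : ZFSet) ∈ D.B G β := by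
  intro D hD G hG β hβ i hi hiA
  obtain ⟨-, g2, g3, -⟩ := hPG D hD G hG
  obtain ⟨hZ, haB, -, -, -, hord, -⟩ := (hCF D hD G hG).1 β hβ
  have k : ZFm (· ∈ D.B G β) := hZ.toZFm
  have hiB : i.toZFSet ∈ D.B G β := (hord i).2 (hi.trans (hD.grd.κχ.trans hD.grd.χθ))
  have e : fib (D.a G β) i.toZFSet = D.F G i := by
    ext q
    show q ∈ fib (D.a G β) i.toZFSet ↔ q ∈ fib (D.X G) i.toZFSet
    unfold fib
    rw [ZFSet.mem_sep, ZFSet.mem_sep, mem_rg, mem_rg]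
    have h1 : ZFSet.pair i.toZFSet q ∈ D.a G β ↔ ZFSet.pair i.toZFSet q ∈ D.X G := by
      show ZFSet.pair i.toZFSet q ∈ aS D.κ.toZFSet D.tf (D.X G) (D.H G) β.toZFSet ↔ _
      unfold aS
      rw [ZFSet.mem_sep]
      constructor
      · exact fun h => h.1
      · intro h
        refine ⟨h, ⟨_, _, rfl⟩, ?_⟩
        rw [fst_pair]
        exact hiA
    constructor
    · rintro ⟨-, h⟩
      exact ⟨⟨_, h1.1 h⟩, h1.1 h⟩
    · rintro ⟨-, h⟩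
      exact ⟨⟨_, h1.2 h⟩, h1.2 h⟩
  rw [← e]
  exact (Tm.sUnion (Tm.at2 (F := fun _ x y => fib x y) hPC.2.2.2.2.2.1 (Tm.var 0) (Tm.var 1))).1
    (· ∈ D.B G β) k (cons (D.a G β) fun _ => i.toZFSet) (In.cons (fun _ => hiB) haB)

/-- the next element of a club -/
theorem exists_nx {m : Ordinal.{0}} {C : V} (hC : ClS m.toZFSet C) {j : V}
    (hj : j ∈ m.toZFSet) : ∃ z ∈ m.toZFSet, Nx C j z := by
  have h1 := (clS_iff m C).1 hC
  obtain ⟨ξ, hξ, rfl⟩ := Ordinal.mem_toZFSet_iff.1 hj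
  obtain ⟨η, g1, g2⟩ := h1.unb ξ hξ
  let S : Set Ordinal.{0} := {η | ξ < η ∧ η.toZFSet ∈ C}
  have h2 : sInf S ∈ S := csInf_mem ⟨η, g1, g2⟩
  refine ⟨(sInf S).toZFSet, h1.sub h2.2, h2.2, Ordinal.toZFSet_mem_toZFSet_iff.2 h2.1, ?_⟩
  rintro y hy ⟨h3, h4⟩
  obtain ⟨ζ, hζ, rfl⟩ := Ordinal.mem_toZFSet_iff.1 (h1.sub hy)
  have h5 : ζ ∈ S := ⟨Ordinal.toZFSet_mem_toZFSet_iff.1 h3, hy⟩
  exact absurd (csInf_le' h5) (not_le.2 (Ordinal.toZFSet_mem_toZFSet_iff.1 h4))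

theorem nx_unique {m : Ordinal.{0}} {C j z z' : V} (h : Nx C j z) (h' : Nx C j z')
    (hz : z ∈ m.toZFSet) (hz' : z' ∈ m.toZFSet) : z = z' := by
  obtain ⟨ξ, hξ, rfl⟩ := Ordinal.mem_toZFSet_iff.1 hz
  obtain ⟨η, hη, rfl⟩ := Ordinal.mem_toZFSet_iff.1 hz'
  rcases lt_trichotomy ξ η with h1 | h1 | h1
  · exact absurd ⟨h.2.1, Ordinal.toZFSet_mem_toZFSet_iff.2 h1⟩ (h'.2.2 _ h.1)
  · rw [h1]
  · exact absurd ⟨h'.2.1, Ordinal.toZFSet_mem_toZFSet_iff.2 h1⟩ (h.2.2 _ h'.1)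

theorem cg_one (hPA : T_PA) (hPB : T_PB) (hPC : T_PC) (hPF : T_PF) (hPG : T_PG) (hPH : T_PH)
    (hPN : T_PN) (hPO : T_PO) (hCC : T_CC) (hCF : T_CF) (hDA : T_DA) (hDF : T_DF) (hDS : T_DS)
    (hGH : T_GH) (hFM : T_FM) (hFE : T_FE) : ∀ D : Dat, D.Ok → ∀ G, D.Gn G →
    ∀ β < D.κ, ∀ i < D.κ, i.toZFSet ∉ D.A G β → ∀ C ∈ D.B G β, IsClub (D.μ i) C →
    ∃ δ < D.μ i, δ.toZFSet ∈ app D.Ef i.toZFSet ∧ δ.toZFSet ∈ C := by
  intro D hD G hG β hβ i hi hiA C hC hCl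
  by_contra hcon
  push Not at hcon
  have hgrd := hD.grd
  have k : ZFm D.M := hgrd.zfc.toZFm
  have hctb : {x | D.M x}.Countable := hgrd.ctb
  obtain ⟨po, Mc, Mr, hec, f1, f2, f3, f4, f5, f6, f7, f8⟩ := hPF D hD
  obtain ⟨ix, hix⟩ := hDA
  obtain ⟨hBz, haB, -, -, -, hBo, -⟩ := (hCF D hD G hG).1 β hβ
  -- the index of `C`
  obtain ⟨ρ, hρ, hCρ⟩ := (mem_Lh_limit hgrd.lim).1 hC
  obtain ⟨e1, e2, he1, he2, heC⟩ := hix.2 (· ∈ D.B G β) hBz.toZFm (D.a G β) haB C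
    ⟨ρ, (hBo ρ).2 hρ, hCρ⟩
  have hMo : ∀ α < D.θ, D.M α.toZFSet := fun α hα => (hgrd.ord α).2 hα
  have hMκ : ∀ α < D.κ, D.M α.toZFSet := fun α hα => hMo α (hα.trans (hgrd.κχ.trans hgrd.χθ))
  set e := ZFSet.pair e1.toZFSet e2.toZFSet with hed
  have hMe : D.M e := k.mpair (hMo _ ((hBo e1).1 he1)) (hMo _ ((hBo e2).1 he2))
  have hMtf : D.M D.tf := Lh_mono hgrd.χθ.le hD.tM
  have hMEf : D.M D.Ef := Lh_mono hgrd.χθ.le hD.eM
  have hMEi : D.M (app D.Ef i.toZFSet) := (Tm.app (Tm.var 0) (Tm.var 1)).1 D.M k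
    (cons D.Ef fun _ => i.toZFSet) (In.cons (fun _ => hMκ i hi) hMEf)
  have hMμ : D.M (D.μ i).toZFSet := hMκ _ (hD.sz.μκ i hi)
  let Par : ℕ → V := cons D.κ.toZFSet (cons D.tf (cons D.c (cons β.toZFSet (cons e
    (cons (D.μ i).toZFSet (cons (app D.Ef i.toZFSet) fun _ => i.toZFSet))))))
  have hPar : In D.M Par := In.cons (In.cons (In.cons (In.cons (In.cons (In.cons (In.cons
    (fun _ => hMκ i hi) hMEi) hMμ) hMe) (hMκ β hβ)) Mc) hMtf) hgrd.inac.mem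
  have hR1 : ∀ G', R1 ix (cons G' Par) ↔ i.toZFSet ∉ D.A G' β ∧
      ClS (D.μ i).toZFSet (ix (D.a G' β) e) ∧
      ∀ x ∈ ix (D.a G' β) e, x ∉ app D.Ef i.toZFSet := fun G' => Iff.rfl
  have hR2 : ∀ G' z j, R2 ix (cons G' (cons z (cons j Par))) ↔ Nx (ix (D.a G' β) e) j z :=
    fun G' z j => Iff.rfl
  -- forcing
  obtain ⟨O1, tO1, hO1⟩ := hDS (fun _ w => R1 ix w) (dfb_R1 hPC hix)
  obtain ⟨O2, tO2, hO2⟩ := hDS (fun _ w => R2 ix w) (dfb_R2 hPC hix)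
  obtain ⟨-, tr1, fc1⟩ := hO1 D.M D.c D.r Par k Mc Mr po hPar
  have fc1 := fc1 hctb
  let Q2 : V → V → V := fun z j => O2 D.M (cons D.c (cons D.r (cons z (cons j Par))))
  have hQ2 : ∀ z j, D.M z → D.M j → RegO D.c D.r (Q2 z j) ∧
      (∀ G, D.Gn G → (Nx (ix (D.a G β) e) j z ↔ ∃ p ∈ G, p ∈ Q2 z j)) ∧
      ∀ p ∈ D.c, (p ∈ Q2 z j ↔ ∀ G, D.Gn G → p ∈ G → Nx (ix (D.a G β) e) j z) := by
    intro z j hz hj
    obtain ⟨h1, h2, h3⟩ := hO2 D.M D.c D.r (cons z (cons j Par)) k Mc Mr po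
      (In.cons (In.cons hPar hj) hz)
    exact ⟨h1, h2, h3 hctb⟩
  obtain ⟨p0, hp0G, hp0⟩ := (tr1 G hG).1 ((hR1 G).2 ⟨hiA, by rw [heC]; exact (clS_iff _ _).2 hCl,
    by
      rw [heC]
      intro x hx hx2
      obtain ⟨δ, hδ, rfl⟩ := Ordinal.mem_toZFSet_iff.1 (hCl.sub hx)
      exact hcon δ hδ hx2 hx⟩)
  have hp0c : p0 ∈ D.c := hG.1.sub hp0G
  have hp0R : ∀ G', D.Gn G' → p0 ∈ G' → i.toZFSet ∉ D.A G' β ∧
      ClS (D.μ i).toZFSet (ix (D.a G' β) e) ∧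
      ∀ x ∈ ix (D.a G' β) e, x ∉ app D.Ef i.toZFSet := fun G' hG' hp =>
    (hR1 G').1 ((fc1 p0 hp0c).1 hp0 G' hG' hp)
  have hmem : ∀ x ∈ (D.μ i).toZFSet, D.M x := fun x hx => k.trans _ hMμ x hx
  have hLe : ∀ p p', ZFSet.pair p p' ∈ D.r ↔ p ∈ D.c ∧ p' ∈ D.c ∧ D.Le p p' := f5
  -- the dense sets
  let W : V := Wt O2 D.M (cons (D.μ i).toZFSet (cons D.c (cons p0 (cons D.r Par))))
  have hMp0 : D.M p0 := (f1 p0 hp0c).2.1
  have hMW : D.M W := (tm_Wt tO2).1 D.M k _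
    (In.cons (In.cons (In.cons (In.cons hPar Mr) hMp0) Mc) hMμ)
  have hW : ∀ j ∈ (D.μ i).toZFSet, ∀ p, p ∈ app W j ↔ p ∈ D.c ∧ ZFSet.pair p p0 ∈ D.r ∧
      ∃ z ∈ (D.μ i).toZFSet, p ∈ Q2 z j := by
    intro j hj p
    show p ∈ app (resS (D.μ i).toZFSet fun j => D.c.sep fun p => ZFSet.pair p p0 ∈ D.r ∧
      ∃ z ∈ (D.μ i).toZFSet, p ∈ Q2 z j) j ↔ _
    rw [app_resS hj, ZFSet.mem_sep]
  have hsi : succ i < D.κ := by
    have h1 := (hGH D hD).2.2 D.κ hgrd.zκ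
    exact h1.2.1.succ_lt hi
  obtain ⟨hGd, hMC, -, -, -⟩ := (hGH D hD).1 (succ i) hsi
  have hSmμ : Sm D.M (LA ∅ (D.γ (succ i))) (D.μ i).toZFSet :=
    (hDF D.M k _ hMC hGd).1 _ (ord_mem_Lh (fun z hz => absurd hz (ZFSet.notMem_empty _))
      (hD.sz.μγ i (succ i) (lt_succ i) hsi))
  have hDen : D.Den p0 (D.μ i).toZFSet W := by
    intro j hj
    refine ⟨fun p hp => ((hW j hj p).1 hp).1, ?_, ?_⟩
    · intro p hp q hq hqp
      obtain ⟨h1, h2, z, hz, h3⟩ := (hW j hj p).1 hp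
      have h4 : ZFSet.pair q p ∈ D.r := (hLe q p).2 ⟨hq, h1, hqp⟩
      exact (hW j hj q).2 ⟨hq, po.trans _ _ _ h4 h2, z, hz,
        (hQ2 z j (hmem z hz) (hmem j hj)).1.2.1 p h3 q h4⟩
    · intro p hp hpp0
      obtain ⟨G', hG', hpG'⟩ := hFM D.M D.c D.r p hctb po hp
      have h1 : ZFSet.pair p p0 ∈ D.r := (hLe p p0).2 ⟨hp, hp0c, hpp0⟩
      have hp0G' : p0 ∈ G' := hG'.1.up p hpG' p0 h1
      obtain ⟨-, h2, -⟩ := hp0R G' hG' hp0G'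
      obtain ⟨z, hz, hz2⟩ := exists_nx h2 hj
      obtain ⟨p', hp', hp'2⟩ := ((hQ2 z j (hmem z hz) (hmem j hj)).2.1 G' hG').1 hz2
      obtain ⟨q, hq, hqp, hqp'⟩ := hG'.1.dir p hpG' p' hp'
      refine ⟨q, (hW j hj q).2 ⟨hG'.1.sub hq, po.trans _ _ _ hqp h1, z, hz,
        (hQ2 z j (hmem z hz) (hmem j hj)).1.2.1 p' hp'2 q hqp'⟩, ((hLe q p).1 hqp).2.2⟩
  obtain ⟨v, hvc, hvp0, hvi, hv⟩ := hPH D hD (succ i) hsi p0 hp0c (D.μ i).toZFSet W hMμ hSmμ hMW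
    hDen
  -- independence of the coordinate `i`
  have hQp0 : D.Q i (app p0 i.toZFSet) := (f1 p0 hp0c).2.2.1 i hi
  have hupd : ∀ p ∈ D.c, upd p i.toZFSet (app p0 i.toZFSet) ∈ D.c := fun p hp =>
    f4 p hp i hi _ hQp0
  have hupv : ∀ p ∈ D.c, app (upd p i.toZFSet (app p0 i.toZFSet)) i.toZFSet = app p0 i.toZFSet ∧
      ∀ l < D.κ, l ≠ i → app (upd p i.toZFSet (app p0 i.toZFSet)) l.toZFSet = app p l.toZFSet := by
    intro p hp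
    obtain ⟨-, h1, h2⟩ := hPB.2.2.1 p i.toZFSet (app p0 i.toZFSet) (f1 p hp).1
    refine ⟨h1, fun l _ hl => h2 _ ?_⟩
    intro h
    exact hl (Ordinal.toZFSet_injective h)
  have hInd : ∀ z j, D.M z → D.M j → ∀ p ∈ D.c, D.Le p p0 → p ∈ Q2 z j →
      upd p i.toZFSet (app p0 i.toZFSet) ∈ Q2 z j := by
    intro z j hz hj p hp hpp0 hpz
    obtain ⟨-, q2, q3⟩ := hQ2 z j hz hj
    obtain ⟨u1, u2⟩ := hupv p hp
    refine (q3 _ (hupd p hp)).2 fun G1 hG1 hpG1 => ?_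
    have hp0G1 : p0 ∈ G1 := by
      refine hG1.1.up _ hpG1 p0 ((hLe _ _).2 ⟨hupd p hp, hp0c, fun l hl => ?_⟩)
      by_cases h : l = i
      · rw [h, u1]
        exact hPA.1 _
      · rw [u2 l hl h]
        exact hpp0 l hl
    obtain ⟨hi1, -, -⟩ := hp0R G1 hG1 hp0G1
    obtain ⟨G2, hG2, m1, m2, -, m3, -⟩ := hPN D hD G1 hG1 {i} (Set.finite_singleton i)
      (fun l hl => by rw [Set.mem_singleton_iff.1 hl]; exact hi) p hp
    have hpG2 : p ∈ G2 := by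
      refine ((hPG D hD G2 hG2).1 p hp).2 fun l hl => ?_
      by_cases h : l = i
      · rw [h]
        exact m2 i (Set.mem_singleton i)
      · rw [m1 l hl (by simpa using h), ← u2 l hl h]
        exact ((hPG D hD G1 hG1).1 _ (hupd p hp)).1 hpG1 l hl
    have hne : ∀ l < D.κ, l.toZFSet ∈ D.A G1 β → D.F G2 l = D.F G1 l := by
      intro l hl hlA
      refine m1 l hl ?_
      intro h
      rw [Set.mem_singleton_iff.1 h] at hlA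
      exact hi1 hlA
    have ha : D.a G2 β = D.a G1 β := (hCC D hD G1 G2 hG1 hG2 m3 β hβ
      (fun l hl h _ => hne l hl h)).2 hne
    have h1 := (q3 p hp).1 hpz G2 hG2 hpG2
    rwa [ha] at h1
  -- the function `w`
  obtain ⟨hGdi, hMCi, hlimi, hbdi, -⟩ := (hGH D hD).1 i hi
  have hMI : D.M (succ i).toZFSet := hMκ _ hsi
  have hMv : D.M v := (f1 v hvc).2.1
  have hMp0i : D.M (app p0 i.toZFSet) := hQp0.1
  let U : V → ℕ → V := fun j => cons j (cons (LA ∅ (D.γ i)) (cons (D.μ i).toZFSet (cons D.c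
    (cons D.r (cons (succ i).toZFSet (cons (app p0 i.toZFSet) (cons v
      (cons i.toZFSet Par))))))))
  let U0 : ℕ → V := cons (LA ∅ (D.γ i)) (cons (D.μ i).toZFSet (cons D.c
    (cons D.r (cons (succ i).toZFSet (cons (app p0 i.toZFSet) (cons v
      (cons i.toZFSet Par)))))))
  have hU0 : In D.M U0 := In.cons (In.cons (In.cons (In.cons (In.cons (In.cons (In.cons
    (In.cons hPar (hMκ i hi)) hMv) hMp0i) hMI) Mr) Mc) hMμ) hMCi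
  have hMf : ∀ j, D.M j → D.M (ft O2 D.M (U j)) := fun j hj =>
    (tm_ft hPC tO2).1 D.M k (U j) (In.cons hU0 hj)
  have hft : ∀ j s z, ZFSet.pair s z ∈ ft O2 D.M (U j) ↔ (s ∈ LA ∅ (D.γ i) ∧
      z ∈ (D.μ i).toZFSet) ∧ s ∈ D.c ∧
      cat (succ i).toZFSet (upd s i.toZFSet (app p0 i.toZFSet)) v ∈ Q2 z j := by
    intro j s z
    show ZFSet.pair s z ∈ (ZFSet.prod (LA ∅ (D.γ i)) (D.μ i).toZFSet).sep (fun t =>
      fst t ∈ D.c ∧ cat (succ i).toZFSet (upd (fst t) i.toZFSet (app p0 i.toZFSet)) v ∈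
        Q2 (snd t) j) ↔ _
    rw [ZFSet.mem_sep, ZFSet.pair_mem_prod, fst_pair, snd_pair]
  have hps : ∀ s ∈ D.c, cat (succ i).toZFSet (upd s i.toZFSet (app p0 i.toZFSet)) v ∈ D.c :=
    fun s hs => f3 _ (hupd s hs) v hvc _ hMI
  have hsvl : ∀ j ∈ (D.μ i).toZFSet, Svl (ft O2 D.M (U j)) := by
    intro j hj s z z' hz hz'
    obtain ⟨⟨-, h1⟩, h2, h3⟩ := (hft j s z).1 hz
    obtain ⟨⟨-, h4⟩, -, h5⟩ := (hft j s z').1 hz'
    have h6 := hps s h2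
    obtain ⟨G', hG', hpG'⟩ := hFM D.M D.c D.r _ hctb po h6
    have h7 := ((hQ2 z j (hmem z h1) (hmem j hj)).2.2 _ h6).1 h3 G' hG' hpG'
    have h8 := ((hQ2 z' j (hmem z' h4) (hmem j hj)).2.2 _ h6).1 h5 G' hG' hpG'
    exact nx_unique h7 h8 h1 h4
  have hMdm : ∀ x, D.M x → D.M (dm x) ∧ D.M (rg x) := fun x hx =>
    ⟨(Tm.dm (Tm.var 0)).1 D.M k (fun _ => x) (fun _ => hx),
      (Tm.rg (Tm.var 0)).1 D.M k (fun _ => x) (fun _ => hx)⟩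
  have hwb : ∀ j ∈ (D.μ i).toZFSet, rkS (rg (ft O2 D.M (U j))) ∈ (D.μ i).toZFSet := by
    intro j hj
    have h1 := hMf j (hmem j hj)
    obtain ⟨-, d2, -, -, -, -, d7, -⟩ := hDF D.M k _ hMCi hGdi
    have h2 := d2 (dm (ft O2 D.M (U j))) (hMdm _ h1).1 (fun s hs => by
      obtain ⟨z, hz⟩ := mem_dm.1 hs
      exact ((hft j s z).1 hz).1.1)
    have h3 := d7 _ _ h2 h1 (hsvl j hj) rfl
    obtain ⟨η, hη, hη2⟩ := hbdi _ (hMdm _ h1).2 h3 (fun z hz => by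
      obtain ⟨s, hs⟩ := mem_rg.1 hz
      exact ((hft j s z).1 hs).1.2)
    refine Ordinal.toZFSet_mem_toZFSet_iff.2 (lt_of_le_of_lt ?_ hη)
    have h4 := ZFSet.rank_mono hη2
    rwa [Ordinal.rank_toZFSet] at h4
  let w : V := resS (D.μ i).toZFSet fun j => rkS (rg (ft O2 D.M (U j)))
  have hMw : D.M w := (Tm.resS (g := fun M u => rkS (rg (ft O2 M u))) (Tm.var 1)
    (Tm.rkS (Tm.rg (tm_ft hPC tO2)))).1 D.M k U0 hU0
  obtain ⟨δ, hδ, hδE, hδw⟩ := hPO D hD i hi w hMw (isFunc_resS _ _ _ hwb)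
  -- the contradiction
  obtain ⟨G3, hG3, hvG3⟩ := hFM D.M D.c D.r v hctb po hvc
  have hvp0r : ZFSet.pair v p0 ∈ D.r := (hLe v p0).2 ⟨hvc, hp0c, hvp0⟩
  obtain ⟨-, hC3, hdis⟩ := hp0R G3 hG3 (hG3.1.up v hvG3 p0 hvp0r)
  refine hdis _ (hC3.2.2 _ (Ordinal.toZFSet_mem_toZFSet_iff.2 hδ) ?_ ?_) hδE
  · intro h
    obtain ⟨δ', -, h1, h2⟩ := (hD.eA i hi δ.toZFSet).1 hδE
    have h3 := h2.gt
    rw [← Ordinal.toZFSet_injective h1] at h3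
    have h4 : (D.γ i).toZFSet ∈ δ.toZFSet := Ordinal.toZFSet_mem_toZFSet_iff.2 h3
    rw [h] at h4
    exact ZFSet.notMem_empty _ h4
  · intro j hj
    obtain ⟨j', hj', rfl⟩ := Ordinal.mem_toZFSet_iff.1 hj
    have hjμ : j'.toZFSet ∈ (D.μ i).toZFSet :=
      Ordinal.toZFSet_mem_toZFSet_iff.2 (hj'.trans hδ)
    have hMwj : D.M (app W j'.toZFSet) := (Tm.app (Tm.var 0) (Tm.var 1)).1 D.M k
      (cons W fun _ => j'.toZFSet) (In.cons (fun _ => hmem _ hjμ) hMW)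
    let Dd : V := Dn (cons D.c (cons (succ i).toZFSet (cons D.r (cons v fun _ =>
      app W j'.toZFSet))))
    have hMD : D.M Dd := (tm_Dn hPC).1 D.M k _
      (In.cons (In.cons (In.cons (In.cons (fun _ => hMwj) hMv) Mr) hMI) Mc)
    have hDd : ∀ q, q ∈ Dd ↔ q ∈ D.c ∧ ∃ u' ∈ D.c, (∀ z ∈ u', fst z ∈ (succ i).toZFSet) ∧
        ZFSet.pair q (cat (succ i).toZFSet u' v) ∈ D.r ∧
        cat (succ i).toZFSet u' v ∈ app W j'.toZFSet := by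
      intro q
      show q ∈ D.c.sep (fun q => ∃ u' ∈ D.c, (∀ z ∈ u', fst z ∈ (succ i).toZFSet) ∧
        ZFSet.pair q (cat (succ i).toZFSet u' v) ∈ D.r ∧
        cat (succ i).toZFSet u' v ∈ app W j'.toZFSet) ↔ _
      rw [ZFSet.mem_sep]
    have hval : ∀ u ∈ D.c, ∀ p ∈ D.c, (∀ l < D.κ, l < succ i →
        app (cat (succ i).toZFSet u p) l.toZFSet = app u l.toZFSet) ∧
        ∀ l < D.κ, ¬ l < succ i →
        app (cat (succ i).toZFSet u p) l.toZFSet = app p l.toZFSet := by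
      intro u hu p hp
      have h1 := (hPB.2.1 u (succ i).toZFSet p (f1 u hu).1 (f1 p hp).1).2
      exact ⟨fun l _ hl => (h1 _).1 (Ordinal.toZFSet_mem_toZFSet_iff.2 hl),
        fun l _ hl => (h1 _).2 fun h => hl (Ordinal.toZFSet_mem_toZFSet_iff.1 h)⟩
    obtain ⟨q, hqG, hqD, -⟩ := hFE D.M D.c D.r G3 Dd v k Mc Mr po hG3 hMD hvG3 (by
      intro p hpv
      obtain ⟨hp, -, hpv'⟩ := (hLe p v).1 hpv
      have hu : rst (succ i).toZFSet p ∈ D.c := f2 p hp _ hMI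
      have huv := (hPB.1 p (succ i).toZFSet (f1 p hp).1).2
      have hup : ∀ l < succ i, app (rst (succ i).toZFSet p) l.toZFSet = app p l.toZFSet :=
        fun l hl => (huv _).1 (Ordinal.toZFSet_mem_toZFSet_iff.2 hl)
      obtain ⟨u', hu', hu'2, hu'3, hu'4⟩ := hv _ hjμ _ hu
        (fun z hz => (ZFSet.mem_sep.1 hz).2) (fun l hl => by
          rw [hup l hl, ← hvi l hl]
          exact hpv' l (hl.trans hsi))
      obtain ⟨c1, c2⟩ := hval u' hu' p hp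
      obtain ⟨c3, c4⟩ := hval u' hu' v hvc
      have hqc : cat (succ i).toZFSet u' p ∈ D.c := f3 u' hu' p hp _ hMI
      refine ⟨cat (succ i).toZFSet u' p, (hDd _).2 ⟨hqc, u', hu', hu'2, (hLe _ _).2
        ⟨hqc, f3 u' hu' v hvc _ hMI, fun l hl => ?_⟩, hu'4⟩, (hLe _ _).2 ⟨hqc, hp, fun l hl => ?_⟩⟩
      · by_cases h : l < succ i
        · rw [c1 l hl h, c3 l hl h]
          exact hPA.1 _
        · rw [c2 l hl h, c4 l hl h]
          exact hpv' l hl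
      · by_cases h : l < succ i
        · rw [c1 l hl h, ← hup l h]
          exact hu'3 l hl
        · rw [c2 l hl h]
          exact hPA.1 _)
    obtain ⟨-, u', hu', hu'2, hqr, hu'W⟩ := (hDd q).1 hqD
    have hcu := f3 u' hu' v hvc _ hMI
    have hcG : cat (succ i).toZFSet u' v ∈ G3 := hG3.1.up q hqG _ hqr
    obtain ⟨-, hcp0, z, hz, hzQ⟩ := (hW _ hjμ _).1 hu'W
    have hMz := hmem z hz
    have hMj := hmem _ hjμ
    have hN := ((hQ2 z _ hMz hMj).2.2 _ hcu).1 hzQ G3 hG3 hcG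
    refine ⟨z, hN.1, hN.2.1, ?_⟩
    -- `z` belongs to `w(j)`
    have h1 := hInd z _ hMz hMj _ hcu ((hLe _ _).1 hcp0).2.2 hzQ
    have hs : rst i.toZFSet u' ∈ D.c := f2 u' hu' _ (hMκ i hi)
    have hsC : rst i.toZFSet u' ∈ LA ∅ (D.γ i) :=
      f8 i hi _ hs fun z hz => (ZFSet.mem_sep.1 hz).2
    have h2 := hps _ hs
    have h3 : ZFSet.pair (cat (succ i).toZFSet (upd (rst i.toZFSet u') i.toZFSet
        (app p0 i.toZFSet)) v) (upd (cat (succ i).toZFSet u' v) i.toZFSet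
        (app p0 i.toZFSet)) ∈ D.r := by
      refine (hLe _ _).2 ⟨h2, hupd _ hcu, fun l hl => ?_⟩
      obtain ⟨b1, b2⟩ := hval _ (hupd _ hs) v hvc
      obtain ⟨b3, b4⟩ := hval _ hu' v hvc
      obtain ⟨b5, b6⟩ := hupv _ hs
      obtain ⟨b7, b8⟩ := hupv _ hcu
      by_cases h : l = i
      · rw [h, b1 i hi (lt_succ i), b5, b7]
        exact hPA.1 _
      · rw [b8 l hl h]
        by_cases h' : l < succ i
        · have h'' : l < i := lt_of_le_of_ne (lt_succ_iff.1 h') h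
          rw [b1 l hl h', b6 l hl h, b3 l hl h', ((hPB.1 u' i.toZFSet (f1 u' hu').1).2 _).1
            (Ordinal.toZFSet_mem_toZFSet_iff.2 h'')]
          exact hPA.1 _
        · rw [b2 l hl h', b4 l hl h']
          exact hPA.1 _
    have h4 := (hQ2 z _ hMz hMj).1.2.1 _ h1 _ h3
    have h5 : z ∈ rg (ft O2 D.M (U j'.toZFSet)) :=
      mem_rg.2 ⟨_, (hft _ _ z).2 ⟨⟨hsC, hz⟩, hs, h4⟩⟩
    have h6 : app w j'.toZFSet ∈ δ.toZFSet := hδw j' hj'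
    rw [app_resS hjμ] at h6
    obtain ⟨ζ, hζ, rfl⟩ := Ordinal.mem_toZFSet_iff.1 hz
    have h7 := ZFSet.rank_lt_of_mem h5
    rw [Ordinal.rank_toZFSet] at h7
    exact Ordinal.toZFSet_mem_toZFSet_iff.2 (h7.trans (Ordinal.toZFSet_mem_toZFSet_iff.1 h6))

/-- CG -/
theorem cg (hPA : T_PA) (hPB : T_PB) (hPC : T_PC) (hPF : T_PF) (hPG : T_PG) (hPH : T_PH)
    (hPN : T_PN) (hPO : T_PO) (hCC : T_CC) (hCF : T_CF) (hDA : T_DA) (hDF : T_DF) (hDS : T_DS)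
    (hGH : T_GH) (hFM : T_FM) (hFE : T_FE) : T_CG := fun D hD G hG β hβ i hi =>
  ⟨cg_one hPA hPB hPC hPF hPG hPH hPN hPO hCC hCF hDA hDF hDS hGH hFM hFE D hD G hG β hβ i hi,
    cg_two hPC hPG hCF D hD G hG β hβ i hi⟩

end CAA.H75
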