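import Pool.Agent.H75.CA.MFb

/-! MF: the limit step for sets of ordinals. -/

set_option linter.unusedVariables false

open Ordinal Order Set
open scoped ZFSet

namespace CAA.H75

open SF CAA

/-- a bound for the levels of finitely many places -/
theorem fin_bound {β : Ordinal.{0}} (hβ : IsSuccLimit β) (F : Set Ordinal.{0}) (hF : F.Finite)
    (l : Ordinal.{0} → Ordinal.{0}) (hl : ∀ k ∈ F, l k < β) : ∃ ξ < β, ∀ k ∈ F, l k ≤ ξ := by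
  induction F, hF using Set.Finite.induction_on with
  | empty => exact ⟨0, pos_iff_ne_zero.2 fun h => hβ.ne_bot (by rw [h]; rfl),
      fun k hk => absurd hk (Set.notMem_empty k)⟩
  | @insert a s _ _ ih =>
    obtain ⟨ξ, hξ, h⟩ := ih fun k hk => hl k (Set.mem_insert_of_mem _ hk)
    refine ⟨max ξ (l a), max_lt hξ (hl a (Set.mem_insert _ _)), fun k hk => ?_⟩
    rcases Set.mem_insert_iff.1 hk with rfl | hk
    · exact le_max_right _ _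
    · exact (h k hk).trans (le_max_left _ _)

theorem mf (hPA : T_PA) (hPB : T_PB) (hPC : T_PC) (hPE : T_PE) (hPF : T_PF) (hPG : T_PG)
    (hPL : T_PL) (hPN : T_PN) (hCC : T_CC) (hCF : T_CF) (hMA : T_MA) (hMD : T_MD)
    (hME : T_ME) (hDA : T_DA) (hDS : T_DS) (hFI : T_FI) (hFJ : T_FJ) (hFL : T_FL) : T_MF := by
  obtain ⟨ix, hix⟩ := hDA
  obtain ⟨O, hO⟩ := choose_f hPC hPE hPF hCF hDS hFI hFJ hFL hix
  obtain ⟨F, tF, hF⟩ := hME
  obtain ⟨Op, tOp, hOp⟩ := hDS (fun _ w => Rp ix F w) (dfb_Rp hix tF)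
  obtain ⟨Om, tOm, hOm⟩ := hDS (fun _ w => ¬ Rp ix F w) (dfb_Rp hix tF).not
  intro D hD G hG β hβ hlim η hη x hxη hx
  have hgrd := hD.grd
  have k : ZFm D.M := hgrd.zfc.toZFm
  obtain ⟨po, Mc, Mr, hec, f1, f2, f3, f4, f5, f6, f7, f8⟩ := hPF D hD
  have hκθ : D.κ < D.θ := hgrd.κχ.trans hgrd.χθ
  have hMo : ∀ α < D.θ, D.M α.toZFSet := fun α hα => (hgrd.ord α).2 hα
  have hMκ : ∀ α < D.κ, D.M α.toZFSet := fun α hα => hMo α (hα.trans hκθ)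
  have hMtf : D.M D.tf := Lh_mono hgrd.χθ.le hD.tM
  obtain ⟨ν, hν, cf, hMcf, hcf, hcof, α0, hα0, hSmν⟩ := hMD D hD β hβ hlim
  obtain ⟨e0, f, hMe0, hxe0, hNf, hf⟩ := hO D hD G hG β hβ x hx ν hν cf hMcf hcf α0 hα0
  have hfG : ∀ j ∈ ν.toZFSet, app f j ∈ G := by
    intro j hj
    obtain ⟨j', hj', rfl⟩ := Ordinal.mem_toZFSet_iff.1 hj
    obtain ⟨-, -, -, h, -⟩ := hf j' hj'
    exact h
  obtain ⟨v, hvG, hv⟩ := hPL D hD G hG α0 (hα0.trans hβ) ν.toZFSet (hMκ ν hν)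
    (hSmν α0 le_rfl (hα0.trans hβ)) f hNf hfG
  have hvc : v ∈ D.c := hG.1.sub hvG
  have hMv : D.M v := (f1 v hvc).2.1
  -- levels
  have hlev : ∀ i < D.κ, ∃ b ≤ i, fst (app D.tf i.toZFSet) = Ordinal.toZFSet b := by
    intro i hi
    obtain ⟨b, hb, y, -, h⟩ := hD.tA i hi
    exact ⟨b, hb, by rw [h, fst_pair]⟩
  -- the set `S`
  let S : V := St (cons D.κ.toZFSet (cons D.tf (cons α0.toZFSet fun _ => β.toZFSet)))
  have hMS : D.M S := tm_St.1 D.M k _ (In.cons (In.cons (In.cons (fun _ => hMκ β hβ)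
    (hMκ _ (hα0.trans hβ))) hMtf) (hMo _ hκθ))
  have hS : ∀ i < D.κ, i.toZFSet ∈ S ↔ α0.toZFSet ⊆ fst (app D.tf i.toZFSet) ∧
      fst (app D.tf i.toZFSet) ∈ β.toZFSet := by
    intro i hi
    show i.toZFSet ∈ D.κ.toZFSet.sep (fun i => α0.toZFSet ⊆ fst (app D.tf i) ∧
      fst (app D.tf i) ∈ β.toZFSet) ↔ _
    rw [ZFSet.mem_sep]
    exact ⟨fun h => h.2, fun h => ⟨Ordinal.toZFSet_mem_toZFSet_iff.2 hi, h⟩⟩
  have hSκ : S ⊆ D.κ.toZFSet := fun z hz => (ZFSet.mem_sep.1 hz).1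
  have hAm : ∀ G' b i, i ∈ D.A G' b → b.toZFSet ⊆ fst (app D.tf i) := by
    intro G' b i h
    have h' : i ∈ As D.κ.toZFSet D.tf (D.X G') (D.H G') b.toZFSet := h
    unfold As at h'
    exact (ZFSet.mem_sep.1 h').2.2
  have hSA : ∀ G', ∀ i ∈ S, i ∉ D.A G' β := by
    intro G' i hi hiA
    obtain ⟨i', hi', rfl⟩ := Ordinal.mem_toZFSet_iff.1 (hSκ hi)
    have h1 := ((hS i' hi').1 hi).2
    exact ZFSet.mem_irrefl _ (hAm G' β _ hiA h1)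
  have hSα : ∀ i < D.κ, i.toZFSet ∈ S → α0 ≤ i := by
    intro i hi h
    obtain ⟨b, hb, h1⟩ := hlev i hi
    have h2 := ((hS i hi).1 h).1
    rw [h1] at h2
    exact (Ordinal.toZFSet_subset_toZFSet_iff.1 h2).trans hb
  -- the model
  obtain ⟨hBz, haB, hBc, hMB, -, hBo, -, hHB, -, -⟩ := (hCF D hD G hG).1 β hβ
  have kB : ZFm (· ∈ D.B G β) := hBz.toZFm
  have hBS : S ∈ D.B G β := hMB S hMS
  obtain ⟨hqc, hqr, hqpo, hqG, hQG⟩ := hMA D hD G hG β hβ S hBS hSκ (hSA G)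
  let Par : ℕ → V := cons D.κ.toZFSet (cons D.tf (cons (D.H G) (cons (D.a G β) (cons S
    (cons α0.toZFSet fun _ => e0)))))
  have hPar : In (· ∈ D.B G β) Par := In.cons (In.cons (In.cons (In.cons (In.cons (In.cons
    (fun _ => hMB _ hMe0) (hMB _ (hMκ _ (hα0.trans hβ)))) hBS) haB) hHB) (hMB _ hMtf))
    (hMB _ (hMo _ hκθ))
  have hQp : ∀ ζ ∈ D.B G β, RegO (D.qc G S) (D.qr G S)
      (Op (· ∈ D.B G β) (cons (D.qc G S) (cons (D.qr G S) (cons ζ Par)))) ∧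
      (∀ g, Gen (· ∈ D.B G β) (D.qc G S) (D.qr G S) g → (Rp ix F (cons g (cons ζ Par)) ↔
        ∃ p ∈ g, p ∈ Op (· ∈ D.B G β) (cons (D.qc G S) (cons (D.qr G S) (cons ζ Par))))) ∧
      ∀ p ∈ D.qc G S, (p ∈ Op (· ∈ D.B G β) (cons (D.qc G S) (cons (D.qr G S) (cons ζ Par))) ↔
        ∀ g, Gen (· ∈ D.B G β) (D.qc G S) (D.qr G S) g → p ∈ g →
          Rp ix F (cons g (cons ζ Par))) := by
    intro ζ hζ
    obtain ⟨h1, h2, h3⟩ := hOp (· ∈ D.B G β) (D.qc G S) (D.qr G S) (cons ζ Par) kB hqc hqr hqpo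
      (In.cons hPar hζ)
    exact ⟨h1, h2, h3 hBc⟩
  have hQm : ∀ ζ ∈ D.B G β, RegO (D.qc G S) (D.qr G S)
      (Om (· ∈ D.B G β) (cons (D.qc G S) (cons (D.qr G S) (cons ζ Par)))) ∧
      (∀ g, Gen (· ∈ D.B G β) (D.qc G S) (D.qr G S) g → (¬ Rp ix F (cons g (cons ζ Par)) ↔
        ∃ p ∈ g, p ∈ Om (· ∈ D.B G β) (cons (D.qc G S) (cons (D.qr G S) (cons ζ Par))))) ∧
      ∀ p ∈ D.qc G S, (p ∈ Om (· ∈ D.B G β) (cons (D.qc G S) (cons (D.qr G S) (cons ζ Par))) ↔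
        ∀ g, Gen (· ∈ D.B G β) (D.qc G S) (D.qr G S) g → p ∈ g →
          ¬ Rp ix F (cons g (cons ζ Par))) := by
    intro ζ hζ
    obtain ⟨h1, h2, h3⟩ := hOm (· ∈ D.B G β) (D.qc G S) (D.qr G S) (cons ζ Par) kB hqc hqr hqpo
      (In.cons hPar hζ)
    exact ⟨h1, h2, h3 hBc⟩
  -- the value at the generic filters
  have hRx : ∀ G', D.Gn G' → D.H G' = D.H G → D.a G' β = D.a G β → ∀ ζ,
      (Rp ix F (cons (Qs S G') (cons ζ Par)) ↔ ζ ∈ ix (D.a G' α0) e0) := by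
    intro G' hG' h1 h2 ζ
    have h3 := hF D hD G' hG' α0 β hα0.le hβ S hSκ (fun i hi g1 g2 => (hS i hi).2 ⟨g1, g2⟩)
    rw [h1, h2] at h3
    show ζ ∈ ix (F D.κ.toZFSet D.tf (D.H G) (D.a G β) S (Qs S G') α0.toZFSet) e0 ↔ _
    rw [h3]
  have hHc : ∀ q ∈ D.H G, q ∈ D.c := by
    intro q hq
    have h' : q ∈ Hs D.κ.toZFSet D.c (D.X G) := hq
    unfold Hs at h'
    exact (ZFSet.mem_sep.1 h').1
  have hrst : ∀ q ∈ D.c, ∀ l ∈ S, app (rst S q) l = app q l := fun q hq l hl =>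
    ((hPB.1 q S (f1 q hq).1).2 l).1 hl
  have hqr' : ∀ p q, ZFSet.pair p q ∈ D.qr G S ↔ (p ∈ D.qc G S ∧ q ∈ D.qc G S) ∧
      ∀ l ∈ D.κ.toZFSet, Ee (app p l) (app q l) := by
    intro p q
    show ZFSet.pair p q ∈ Qr D.κ.toZFSet S (D.H G) ↔ _
    unfold Qr
    rw [ZFSet.mem_sep, ZFSet.pair_mem_prod, fst_pair, snd_pair]
    exact Iff.rfl
  obtain ⟨pg1, pg2, pg3, pg4, pg5, -⟩ := hPG D hD G hG
  -- modified generic filters
  have key : ∀ q ∈ D.H G, ZFSet.pair (rst S q) (rst S v) ∈ D.qr G S →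
      ∃ G1, D.Gn G1 ∧ D.H G1 = D.H G ∧ D.a G1 β = D.a G β ∧
        Gen (· ∈ D.B G β) (D.qc G S) (D.qr G S) (Qs S G1) ∧ rst S q ∈ Qs S G1 ∧
        ix (D.a G1 α0) e0 = x := by
    intro q hq hqv
    have hqc' := hHc q hq
    let Fs : Set Ordinal.{0} := {l | l < D.κ ∧ app q l.toZFSet ∉ D.F G l} ∩ {l | l.toZFSet ∈ S}
    have hFs : Fs.Finite := ((pg5 q hqc').1 hq).inter_of_left _
    obtain ⟨G1, hG1, m1, m2, -, m3, -⟩ := hPN D hD G hG Fs hFs (fun l hl => hl.1.1) q hqc'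
    obtain ⟨n1, n2, n3, -, n5, -⟩ := hPG D hD G1 hG1
    have hnF : ∀ l < D.κ, ∀ b, l.toZFSet ∈ D.A G b →
        (∀ i ∈ Fs, fst (app D.tf i.toZFSet) ∈ Ordinal.toZFSet b) → D.F G1 l = D.F G l := by
      intro l hl b hlA hb
      refine m1 l hl fun h => ?_
      exact ZFSet.mem_irrefl _ (hAm G b _ hlA (hb l h))
    have hFβ : ∀ i ∈ Fs, fst (app D.tf i.toZFSet) ∈ β.toZFSet := fun i hi =>
      ((hS i hi.1.1).1 hi.2).2
    have haβ : D.a G1 β = D.a G β := (hCC D hD G G1 hG hG1 m3 β hβ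
      (fun l hl h _ => hnF l hl β h hFβ)).2 fun l hl h => hnF l hl β h hFβ
    have hBB : D.B G1 β = D.B G β := by
      show LA (D.a G1 β) D.θ = LA (D.a G β) D.θ
      rw [haβ]
    have hqcc : D.qc G1 S = D.qc G S := by
      show Qs S (D.H G1) = Qs S (D.H G)
      rw [m3]
    have hqrr : D.qr G1 S = D.qr G S := by
      show Qr D.κ.toZFSet S (D.H G1) = Qr D.κ.toZFSet S (D.H G)
      rw [m3]
    obtain ⟨-, -, -, hgen, hQG1⟩ := hMA D hD G1 hG1 β hβ S (by rw [hBB]; exact hBS) hSκ (hSA G1)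
    rw [hBB, hqcc, hqrr] at hgen
    have hin : ∀ l < D.κ, l.toZFSet ∈ S → app q l.toZFSet ∈ D.F G1 l := by
      intro l hl hlS
      by_cases h : l ∈ Fs
      · exact m2 l h
      · rw [m1 l hl h]
        by_contra h2
        exact h ⟨⟨hl, h2⟩, hlS⟩
    have hrq : rst S q ∈ Qs S G1 := by
      rw [hQG1, hqcc]
      refine ZFSet.mem_sep.2 ⟨((hqr' _ _).1 hqv).1.1, fun l hl => ?_⟩
      obtain ⟨l', hl', rfl⟩ := Ordinal.mem_toZFSet_iff.1 (hSκ hl)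
      rw [hrst q hqc' _ hl]
      exact (n3 _).2 ⟨l', hl', _, hin l' hl' hl, rfl⟩
    refine ⟨G1, hG1, m3, haβ, hgen, hrq, ?_⟩
    -- the choice of `j`
    let lv : Ordinal.{0} → Ordinal.{0} := fun l => (fst (app D.tf l.toZFSet)).rank
    have hlv : ∀ l < D.κ, fst (app D.tf l.toZFSet) = (lv l).toZFSet := by
      intro l hl
      obtain ⟨b, -, h⟩ := hlev l hl
      show _ = (fst (app D.tf l.toZFSet)).rank.toZFSet
      rw [h, Ordinal.rank_toZFSet]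
    obtain ⟨ξ0, hξ0, hξ1⟩ := fin_bound hlim Fs hFs lv (fun l hl => by
      have h := hFβ l hl
      rw [hlv l hl.1.1] at h
      exact Ordinal.toZFSet_mem_toZFSet_iff.1 h)
    obtain ⟨j, hj, hj2⟩ := hcof ξ0 hξ0
    obtain ⟨ξ, hξ, hjξ, hfj, e, hMe, hex, hfo⟩ := hf j hj
    rw [hjξ] at hj2
    have hj3 := Ordinal.toZFSet_mem_toZFSet_iff.1 hj2
    have hFξ : ∀ i ∈ Fs, fst (app D.tf i.toZFSet) ∈ ξ.toZFSet := by
      intro i hi
      rw [hlv i hi.1.1]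
      exact Ordinal.toZFSet_mem_toZFSet_iff.2 ((hξ1 i hi).trans_lt hj3)
    have haξ : D.a G1 ξ = D.a G ξ := (hCC D hD G G1 hG hG1 m3 ξ (hξ.trans hβ)
      (fun l hl h _ => hnF l hl ξ h hFξ)).2 fun l hl h => hnF l hl ξ h hFξ
    have hfjc : app f j.toZFSet ∈ D.c := hG.1.sub hfj
    have hMα : D.M α0.toZFSet := hMκ _ (hα0.trans hβ)
    have hcat := (hPB.2.1 (app f j.toZFSet) α0.toZFSet v (f1 _ hfjc).1 (f1 v hvc).1).2
    have hcc : cat α0.toZFSet (app f j.toZFSet) v ∈ D.c := f3 _ hfjc v hvc _ hMα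
    have hcG : cat α0.toZFSet (app f j.toZFSet) v ∈ G1 := by
      refine (n1 _ hcc).2 fun l hl => ?_
      by_cases h : l ∈ Fs
      · have h1 : α0 ≤ l := hSα l hl h.2
        have h2 : l.toZFSet ∉ α0.toZFSet := fun h3 =>
          absurd (Ordinal.toZFSet_mem_toZFSet_iff.1 h3) (not_lt.2 h1)
        rw [(hcat _).2 h2]
        obtain ⟨-, -, -, n4, -⟩ := n2 l hl
        refine n4 _ (hin l hl h.2) _ ((f1 v hvc).2.2.1 l hl) ?_
        have h3 := ((hqr' _ _).1 hqv).2 _ (Ordinal.toZFSet_mem_toZFSet_iff.2 hl)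
        rw [hrst q hqc' _ h.2, hrst v hvc _ h.2] at h3
        exact h3
      · rw [m1 l hl h]
        by_cases h2 : l.toZFSet ∈ α0.toZFSet
        · rw [(hcat _).1 h2]
          exact (pg1 _ hfjc).1 hfj l hl
        · rw [(hcat _).2 h2]
          exact (pg1 _ hvc).1 hvG l hl
    have hfG1 : app f j.toZFSet ∈ G1 := by
      refine hG1.1.up _ hcG _ ((f5 _ _).2 ⟨hcc, hfjc, fun l hl => ?_⟩)
      by_cases h2 : l.toZFSet ∈ α0.toZFSet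
      · rw [(hcat _).1 h2]
        exact hPA.1 _
      · rw [(hcat _).2 h2]
        exact hv _ (Ordinal.toZFSet_mem_toZFSet_iff.2 hj) l hl
          (not_lt.1 fun h3 => h2 (Ordinal.toZFSet_mem_toZFSet_iff.2 h3))
    rw [← hfo G1 hG1 hfG1, haξ, hex]
  have hHr : ∀ q, q ∈ D.qc G S ↔ ∃ p ∈ D.H G, rst S p = q := by
    intro q
    show q ∈ Qs S (D.H G) ↔ _
    unfold Qs
    rw [mem_imS]
  -- incompatibility of the decisions below `v`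
  have hno : ∀ ζ ∈ D.B G β, ∀ r1 r2, ZFSet.pair r1 (rst S v) ∈ D.qr G S →
      ZFSet.pair r2 (rst S v) ∈ D.qr G S →
      r1 ∈ Op (· ∈ D.B G β) (cons (D.qc G S) (cons (D.qr G S) (cons ζ Par))) →
      r2 ∈ Om (· ∈ D.B G β) (cons (D.qc G S) (cons (D.qr G S) (cons ζ Par))) → False := by
    intro ζ hζ r1 r2 h1 h2 h3 h4
    obtain ⟨q1, hq1, rfl⟩ := (hHr _).1 ((hqr' _ _).1 h1).1.1
    obtain ⟨q2, hq2, rfl⟩ := (hHr _).1 ((hqr' _ _).1 h2).1.1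
    obtain ⟨G1, g1, g2, g3, g4, g5, g6⟩ := key q1 hq1 h1
    obtain ⟨G2, l1, l2, l3, l4, l5, l6⟩ := key q2 hq2 h2
    have h5 := ((hQp ζ hζ).2.2 _ ((hqr' _ _).1 h1).1.1).1 h3 _ g4 g5
    have h6 := ((hQm ζ hζ).2.2 _ ((hqr' _ _).1 h2).1.1).1 h4 _ l4 l5
    rw [hRx G1 g1 g2 g3, g6] at h5
    rw [hRx G2 l1 l2 l3, l6] at h6
    exact h6 h5
  have hvH : v ∈ D.H G := pg4 v hvG
  have hrv : rst S v ∈ Qs S G := by
    unfold Qs
    exact mem_imS.2 ⟨v, hvG, rfl⟩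
  have hMrv : D.M (rst S v) := hPC.2.2.1.1 D.M k (cons S fun _ => v) (In.cons (fun _ => hMv) hMS)
  have hEt : Et Op (· ∈ D.B G β) (cons η.toZFSet (cons (D.qc G S) (cons (D.qr G S)
      (cons (rst S v) Par)))) ∈ D.B G β :=
    (tm_Et tOp).1 (· ∈ D.B G β) kB _ (In.cons (In.cons (In.cons (In.cons hPar (hMB _ hMrv)) hqr)
      hqc) (hMB _ (hMκ η hη)))
  have hηB : ∀ ζ ∈ η.toZFSet, ζ ∈ D.B G β := fun ζ hζ =>
    hMB _ (k.trans _ (hMκ η hη) _ hζ)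
  have e : x = Et Op (· ∈ D.B G β) (cons η.toZFSet (cons (D.qc G S) (cons (D.qr G S)
      (cons (rst S v) Par)))) := by
    ext ζ
    have h0 : ζ ∈ Et Op (· ∈ D.B G β) (cons η.toZFSet (cons (D.qc G S) (cons (D.qr G S)
        (cons (rst S v) Par)))) ↔ ζ ∈ η.toZFSet ∧ ∃ p ∈ D.qc G S,
        ZFSet.pair p (rst S v) ∈ D.qr G S ∧
        p ∈ Op (· ∈ D.B G β) (cons (D.qc G S) (cons (D.qr G S) (cons ζ Par))) := by
      show ζ ∈ η.toZFSet.sep (fun ζ => ∃ p ∈ D.qc G S,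
        ZFSet.pair p (rst S v) ∈ D.qr G S ∧
        p ∈ Op (· ∈ D.B G β) (cons (D.qc G S) (cons (D.qr G S) (cons ζ Par)))) ↔ _
      rw [ZFSet.mem_sep]
    rw [h0]
    constructor
    · intro hζ
      have hζη := hxη hζ
      refine ⟨hζη, ?_⟩
      have h1 : Rp ix F (cons (Qs S G) (cons ζ Par)) := by
        rw [hRx G hG rfl rfl, ← hxe0]
        exact hζ
      obtain ⟨p, hp, hp2⟩ := ((hQp ζ (hηB ζ hζη)).2.1 _ hqG).1 h1
      obtain ⟨q, hq, hqp, hqv⟩ := hqG.1.dir p hp _ hrv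
      exact ⟨q, hqG.1.sub hq, hqv, (hQp ζ (hηB ζ hζη)).1.2.1 p hp2 q hqp⟩
    · rintro ⟨hζη, p, hp, hpv, hp2⟩
      by_contra hζ
      have h1 : ¬ Rp ix F (cons (Qs S G) (cons ζ Par)) := by
        rw [hRx G hG rfl rfl, ← hxe0]
        exact hζ
      obtain ⟨p', hp', hp'2⟩ := ((hQm ζ (hηB ζ hζη)).2.1 _ hqG).1 h1
      obtain ⟨q, hq, hqp, hqv⟩ := hqG.1.dir p' hp' _ hrv
      exact hno ζ (hηB ζ hζη) p q hpv hqv hp2 ((hQm ζ (hηB ζ hζη)).1.2.1 p' hp'2 q hqp)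
  rw [e]
  exact hEt

end CAA.H75
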