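import Pool.Agent.H9.CA.Tool

/-! DP: `V_κ` is a model of `ZFC`. -/

set_option linter.unusedVariables false

open Ordinal Order Set
open scoped ZFSet

namespace CAA.H75

open SF CAA

/-- satisfaction in a set, for a fixed formula, is uniformly definable -/
theorem dfb_satN (φ : Fml) : Dfb ZFm (fun _ w => SatP (· ∈ w 0) (fun _ => False) φ
    (fun i => w (i + 1))) := by
  induction φ with
  | mem i j => exact Dfb.mem (Tm.var (i + 1)) (Tm.var (j + 1))
  | eq i j => exact Dfb.eq (Tm.var (i + 1)) (Tm.var (j + 1))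
  | prd i => exact Dfb.fls
  | neg φ ih => exact ih.not
  | and φ ψ ih1 ih2 => exact ih1.and ih2
  | ex φ ih =>
    have h1 := ih.rn (fun i => match i with | 0 => 1 | 1 => 0 | i + 2 => i + 2)
    refine (Dfb.bex ktr_zfm (Tm.var 0) h1).congr fun M k w hw => ?_
    refine exists_congr fun x => and_congr_right fun hx => ?_
    have e : (fun i => cons x w (match (i + 1 : ℕ) with | 0 => 1 | 1 => 0 | i + 2 => i + 2)) =
        cons x fun i => w (i + 1) := by
      funext i
      cases i with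
      | zero => rfl
      | succ n => rfl
    show SatP (· ∈ cons x w 1) (fun _ => False) φ (fun i => cons x w (match (i + 1 : ℕ) with
      | 0 => 1 | 1 => 0 | i + 2 => i + 2)) ↔ _
    rw [e]
    rfl

theorem dfb_satN' (φ : Fml) {f : (V → Prop) → (ℕ → V) → V} {g : ℕ → (V → Prop) → (ℕ → V) → V}
    (hf : Tm ZFm f) (hg : ∀ i, Tm ZFm (g i)) :
    Dfb ZFm (fun M w => Sat (· ∈ f M w) φ (fun i => g i M w)) :=
  ((dfb_satN φ).comp (fun i => match i with | 0 => f | i + 1 => g i) (fun i => by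
    cases i with
    | zero => exact hf
    | succ n => exact hg n)).congr fun M k w hw => Iff.rfl

theorem dp (hDO : T_DO) : T_DP := by
  intro M κ N hM hκ hN
  obtain ⟨N', hMN, hVk, hGd, hlim, e1, e2, e3, e4, e5⟩ := hDO M κ hM hκ
  have hNN : N' = N := by
    ext x
    rw [hVk x, hN x]
  subst hNN
  have k : ZFm M := hM.toZFm
  have hMκ := hκ.mem
  have hsucc : ∀ α < κ, succ α < κ := fun α h => hlim.succ_lt h
  have hrk : ∀ x ∈ N', x.rank < κ := fun x hx => ((hN x).1 hx).2
  have hMx : ∀ x ∈ N', M x := fun x hx => ((hN x).1 hx).1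
  have hmk : ∀ x, M x → x.rank < κ → x ∈ N' := fun x h1 h2 => (hN x).2 ⟨h1, h2⟩
  have hord : ∀ α : Ordinal.{0}, α.toZFSet ∈ N' ↔ α < κ := by
    intro α
    constructor
    · intro h
      have := hrk _ h
      rwa [Ordinal.rank_toZFSet] at this
    · intro h
      refine hmk _ (k.trans _ hMκ _ (Ordinal.toZFSet_mem_toZFSet_iff.2 h)) ?_
      rwa [Ordinal.rank_toZFSet]
  have htr : ∀ x ∈ N', ∀ y ∈ x, y ∈ N' := fun x hx y hy => hGd.tr x hx hy
  refine ⟨⟨⟨⟨htr, ?_, ?_, hGd.om, ?_, ?_⟩, ?_⟩, ?_⟩, hord⟩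
  · intro x y hx hy
    refine hmk _ (k.pair _ _ (hMx x hx) (hMx y hy)) ?_
    rw [ZFSet.rank_pair]
    exact max_lt (hsucc _ (hrk x hx)) (hsucc _ (hrk y hy))
  · intro x hx
    refine hmk _ (k.union _ (hMx x hx)) ?_
    exact (ZFSet.rank_sUnion_le x).trans_lt (hrk x hx)
  · intro φ v a hv ha
    refine e2 a ha _ ?_ fun z hz => (ZFSet.mem_sep.1 hz).1
    have h1 : Tm ZFm (fun _ w => (w 1).sep fun z => Sat (· ∈ w 0) φ (cons z fun i => w (i + 2))) := by
      refine (Tm.sep (R := fun _ u => Sat (· ∈ u 1) φ (fun i => match i with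
        | 0 => u 0 | i + 1 => u (i + 3))) ?_ (Tm.var 1)).congr fun M k w hw => ?_
      · exact (dfb_satN' φ (Tm.var 1) (g := fun i => match i with
          | 0 => fun _ u => u 0 | i + 1 => fun _ u => u (i + 3)) (fun i => by
            cases i with
            | zero => exact Tm.var 0
            | succ n => exact Tm.var _)).congr fun M k w hw => by
              refine Iff.of_eq (congrArg _ ?_)
              funext i
              cases i <;> rfl
      · ext z
        rw [ZFSet.mem_sep, ZFSet.mem_sep]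
        refine and_congr_right fun _ => Iff.of_eq (congrArg _ ?_)
        funext i
        cases i <;> rfl
    exact h1.1 M k (cons N' (cons a v)) (In.cons (In.cons (fun i => hMx _ (hv i)) (hMx a ha)) hMN)
  · intro φ v a hv ha hex
    -- the function: least rank of a witness
    let Q : (ℕ → V) → Prop := fun w => ∃ y ∈ w 1, rkS y = w 2 ∧
        Sat (· ∈ w 1) φ (cons y (cons (w 0) fun i => w (i + 3)))
    have hQ : Dfb ZFm (fun _ w => Q w) := by
      refine (Dfb.bex (R := fun _ u => rkS (u 0) = u 3 ∧ Sat (· ∈ u 2) φ (fun i => match i with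
        | 0 => u 0 | 1 => u 1 | i + 2 => u (i + 4))) ktr_zfm (Tm.var 1) ?_).congr
        fun M k w hw => ?_
      · refine (Dfb.eq (Tm.rkS (Tm.var 0)) (Tm.var 3)).and ?_
        exact (dfb_satN' φ (Tm.var 2) (g := fun i => match i with
          | 0 => fun _ u => u 0 | 1 => fun _ u => u 1 | i + 2 => fun _ u => u (i + 4))
          (fun i => by
            rcases i with _ | _ | n
            · exact Tm.var 0
            · exact Tm.var 1
            · exact Tm.var _)).congr fun M k w hw => by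
              refine Iff.of_eq (congrArg _ ?_)
              funext i
              rcases i with _ | _ | n <;> rfl
      · refine exists_congr fun y => and_congr_right fun hy => and_congr_right fun _ =>
          Iff.of_eq (congrArg _ ?_)
        funext i
        rcases i with _ | _ | n <;> rfl
    have hF : Tm ZFm (fun _ w => (w 1).sep fun t =>
        Q (cons (fst t) (cons (w 0) (cons (snd t) fun i => w (i + 2)))) ∧ ∀ ρ ∈ snd t,
          ¬ Q (cons (fst t) (cons (w 0) (cons ρ fun i => w (i + 2))))) := by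
      refine (Tm.sep (R := fun _ u => Q (cons (fst (u 0)) (cons (u 1) (cons (snd (u 0))
        fun i => u (i + 3)))) ∧ ∀ ρ ∈ snd (u 0), ¬ Q (cons (fst (u 0)) (cons (u 1) (cons ρ
        fun i => u (i + 3))))) (Dfb.and ?_ ?_) (Tm.var 1)).congr fun M k w hw => rfl
      · refine (hQ.comp (fun i => match i with
          | 0 => fun _ u => fst (u 0) | 1 => fun _ u => u 1 | 2 => fun _ u => snd (u 0)
          | i + 3 => fun _ u => u (i + 3)) (fun i => ?_)).congr fun M k w hw => ?_
        · rcases i with _ | _ | _ | n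
          · exact Tm.fst (Tm.var 0)
          · exact Tm.var 1
          · exact Tm.snd (Tm.var 0)
          · exact Tm.var _
        · refine Iff.of_eq (congrArg _ ?_)
          funext i
          rcases i with _ | _ | _ | n <;> rfl
      · refine (Dfb.ball (R := fun _ u => ¬ Q (cons (fst (u 1)) (cons (u 2) (cons (u 0)
          fun i => u (i + 4))))) ktr_zfm (Tm.snd (Tm.var 0)) (Dfb.not ?_)).congr
          fun M k w hw => Iff.rfl
        refine (hQ.comp (fun i => match i with
          | 0 => fun _ u => fst (u 1) | 1 => fun _ u => u 2 | 2 => fun _ u => u 0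
          | i + 3 => fun _ u => u (i + 4)) (fun i => ?_)).congr fun M k w hw => ?_
        · rcases i with _ | _ | _ | n
          · exact Tm.fst (Tm.var 1)
          · exact Tm.var 2
          · exact Tm.var 0
          · exact Tm.var _
        · refine Iff.of_eq (congrArg _ ?_)
          funext i
          rcases i with _ | _ | _ | n <;> rfl
    have hprod : M (ZFSet.prod a κ.toZFSet) :=
      (Tm.prod (Tm.var 0) (Tm.var 1)).1 M k (cons a fun _ => κ.toZFSet)
        (In.cons (fun _ => hMκ) (hMx a ha))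
    have hMf := hF.1 M k (cons N' (cons (ZFSet.prod a κ.toZFSet) v))
      (In.cons (In.cons (fun i => hMx _ (hv i)) hprod) hMN)
    set f := ((cons N' (cons (ZFSet.prod a κ.toZFSet) v)) 1).sep fun t =>
        Q (cons (fst t) (cons ((cons N' (cons (ZFSet.prod a κ.toZFSet) v)) 0) (cons (snd t)
          fun i => (cons N' (cons (ZFSet.prod a κ.toZFSet) v)) (i + 2)))) ∧ ∀ ρ ∈ snd t,
          ¬ Q (cons (fst t) (cons ((cons N' (cons (ZFSet.prod a κ.toZFSet) v)) 0) (cons ρ
          fun i => (cons N' (cons (ZFSet.prod a κ.toZFSet) v)) (i + 2)))) with hf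
    let P : V → V → Prop := fun x ρ => ∃ y ∈ N', rkS y = ρ ∧
      Sat (· ∈ N') φ (cons y (cons x v))
    have hmf : ∀ x ρ, ZFSet.pair x ρ ∈ f ↔ (x ∈ a ∧ ρ ∈ κ.toZFSet) ∧ P x ρ ∧
        ∀ ρ' ∈ ρ, ¬ P x ρ' := by
      intro x ρ
      rw [hf, ZFSet.mem_sep]
      simp only [fst_pair, snd_pair]
      refine and_congr ?_ Iff.rfl
      exact ZFSet.pair_mem_prod
    have hfun : ZFSet.IsFunc a κ.toZFSet f := by
      refine ⟨fun t ht => (ZFSet.mem_sep.1 ht).1, fun x hx => ?_⟩
      obtain ⟨y, hy, hs⟩ := hex x hx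
      have hne : ∃ ρ : Ordinal.{0}, P x ρ.toZFSet := ⟨y.rank, y, hy, rfl, hs⟩
      have hlt : ∀ ρ : Ordinal.{0}, P x ρ.toZFSet → ρ < κ := by
        rintro ρ ⟨y, hy, h1, -⟩
        have h2 : y.rank = ρ := Ordinal.toZFSet_injective h1
        rw [← h2]
        exact hrk y hy
      let ρ₀ := sInf {ρ : Ordinal.{0} | P x ρ.toZFSet}
      have h0 : P x ρ₀.toZFSet := csInf_mem (s := {ρ : Ordinal.{0} | P x ρ.toZFSet}) hne
      have hmin : ∀ ρ : Ordinal.{0}, P x ρ.toZFSet → ρ₀ ≤ ρ := fun ρ h => csInf_le' h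
      refine ⟨ρ₀.toZFSet, ?_, ?_⟩
      · refine (hmf _ _).2 ⟨⟨hx, Ordinal.toZFSet_mem_toZFSet_iff.2 (hlt _ h0)⟩, h0, ?_⟩
        intro ρ' hρ' hp
        obtain ⟨β, hβ, rfl⟩ := Ordinal.mem_toZFSet_iff.1 hρ'
        exact absurd (hmin β hp) (not_le.2 hβ)
      · intro ρ hρ
        obtain ⟨⟨-, h2⟩, h3, h4⟩ := (hmf _ _).1 hρ
        obtain ⟨β, hβ, rfl⟩ := Ordinal.mem_toZFSet_iff.1 h2
        congr 1
        refine le_antisymm ?_ (hmin β h3)
        by_contra hlt'
        exact h4 _ (Ordinal.toZFSet_mem_toZFSet_iff.2 (not_le.1 hlt')) h0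
    obtain ⟨γ, hγ, hγ2⟩ := e4 a ha f hMf hfun
    have hb : Tm ZFm (fun _ w => (w 0).sep fun y => rkS y ∈ w 1) :=
      (Tm.sep (R := fun _ u => rkS (u 0) ∈ u 2) (Dfb.mem (Tm.rkS (Tm.var 0)) (Tm.var 2))
        (Tm.var 0)).congr fun M k w hw => rfl
    have hMγ : M γ.toZFSet := k.trans _ hMκ _ (Ordinal.toZFSet_mem_toZFSet_iff.2 hγ)
    have hMb := hb.1 M k (cons N' (cons γ.toZFSet fun _ => γ.toZFSet))
      (In.cons (In.cons (fun _ => hMγ) hMγ) hMN)
    refine ⟨_, hmk _ hMb ?_, fun x hx => ?_⟩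
    · refine lt_of_le_of_lt ?_ hγ
      rw [ZFSet.rank_le_iff]
      intro y hy
      exact Ordinal.toZFSet_mem_toZFSet_iff.1 (ZFSet.mem_sep.1 hy).2
    · obtain ⟨-, ⟨y, hy, h1, h2⟩, -⟩ := (hmf _ _).1 (pair_app_mem hfun hx)
      refine ⟨y, ZFSet.mem_sep.2 ⟨hy, ?_⟩, h2⟩
      have := hγ2 x hx
      rw [← h1] at this
      exact this
  · intro x hx
    rcases e1 x hx with rfl | ⟨l, hl, f, hf, hf2⟩
    · refine ⟨0, ∅, ?_, ?_⟩
      · exact e2 _ hGd.om _ k.mempty (ZFSet.empty_subset _)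
      · rw [Ordinal.toZFSet_zero]
        refine ⟨⟨ZFSet.empty_subset _, fun z hz => absurd hz (ZFSet.notMem_empty _)⟩,
          fun z hz => absurd hz (ZFSet.notMem_empty _)⟩
    · exact ⟨l, f, hf, hf2⟩
  · intro x hx
    have h1 : Tm ZFm (fun _ w => (w 0).sep fun z => z ⊆ w 1) :=
      (Tm.sep (R := fun _ u => u 0 ⊆ u 2) (Dfb.subset (Tm.var 0) (Tm.var 2)) (Tm.var 0)).congr
        fun M k w hw => rfl
    have h2 := h1.1 M k (cons N' (cons x fun _ => x))
      (In.cons (In.cons (fun i => hMx _ hx) (hMx x hx)) hMN)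
    refine ⟨_, hmk _ h2 ?_, fun z hz hzx => ZFSet.mem_sep.2 ⟨hz, hzx⟩⟩
    refine lt_of_le_of_lt ?_ (hsucc _ (hrk x hx))
    rw [ZFSet.rank_le_iff]
    intro z hz
    exact lt_succ_of_le (ZFSet.rank_mono (ZFSet.mem_sep.1 hz).2)

end CAA.H75
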