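import Pool.Agent.H9.CA.Tool

/-! DR: the part below an inaccessible `κ` of a model `L_θ[a]`. -/

set_option linter.unusedVariables false

open Ordinal Order Set
open scoped ZFSet

namespace CAA.H75

open SF CAA

theorem mem_Dcl {N Y z : V} : z ∈ Dcl N Y ↔ z ∈ N ∧ ∃ (φ : Fml) (l : List V),
    (∀ p ∈ l, p ∈ Y ∧ p ∈ N) ∧ ∀ x ∈ N, (Sat (· ∈ N) φ (cons x fun i => l.getD i x) ↔ x = z) := by
  unfold Dcl
  rw [ZFSet.mem_sep]

theorem Dcl_sub {N Y : V} : Dcl N Y ⊆ N := fun z h => (mem_Dcl.1 h).1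

/-- an element of the definable closure of a union of a chain -/
theorem Dcl_chain {N : V} (Y : ℕ → V) (hY : ∀ n, Y n ⊆ Y (n + 1)) (Y' : V)
    (h : ∀ p ∈ Y', ∃ n, p ∈ Y n) {z : V} (hz : z ∈ Dcl N Y') : ∃ n, z ∈ Dcl N (Y n) := by
  obtain ⟨hzN, φ, l, hl, h2⟩ := mem_Dcl.1 hz
  have hmono : ∀ m n, m ≤ n → Y m ⊆ Y n := by
    intro m n hmn
    induction n, hmn using Nat.le_induction with
    | base => exact fun _ h => h
    | succ n _ ih => exact fun _ h => hY n (ih h)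
  have key : ∀ l : List V, (∀ p ∈ l, p ∈ Y') → ∃ n, ∀ p ∈ l, p ∈ Y n := by
    intro l
    induction l with
    | nil => exact fun _ => ⟨0, fun p hp => absurd hp List.not_mem_nil⟩
    | cons a l ih =>
      intro hl
      obtain ⟨n, hn⟩ := ih fun p hp => hl p (List.mem_cons_of_mem _ hp)
      obtain ⟨m, hm⟩ := h a (hl a List.mem_cons_self)
      refine ⟨max m n, fun p hp => ?_⟩
      rcases List.mem_cons.1 hp with rfl | hp
      · exact hmono _ _ (le_max_left _ _) hm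
      · exact hmono _ _ (le_max_right _ _) (hn p hp)
  obtain ⟨n, hn⟩ := key l fun p hp => (hl p hp).1
  exact ⟨n, mem_Dcl.2 ⟨hzN, φ, l, fun p hp => ⟨hn p hp, (hl p hp).2⟩, h2⟩⟩

/-- witnesses in an elementary submodel -/
theorem wit {N X : V} (hX : ElSub X N) (hN : ZFm (· ∈ N)) {Rel : (V → Prop) → (ℕ → V) → Prop}
    (hR : Dfb ZFm Rel) (v : ℕ → V) (hv : ∀ i, v i ∈ X) (h : ∃ z ∈ N, Rel (· ∈ N) (cons z v)) :
    ∃ z ∈ X, Rel (· ∈ N) (cons z v) := by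
  obtain ⟨φ, hφ⟩ := hR
  have hvN : ∀ i, v i ∈ N := fun i => hX.1 (hv i)
  obtain ⟨z, hz, hz2⟩ := h
  have h1 : Sat (· ∈ N) (.ex φ) v := ⟨z, hz, (hφ _ hN (cons z v) (In.cons hvN hz)).2 hz2⟩
  obtain ⟨y, hy, hy2⟩ := (hX.2 (.ex φ) v hv).2 h1
  have h2 := (hX.2 φ (cons y v) (fun i => by
    cases i with
    | zero => exact hy
    | succ n => exact hv n)).1 hy2
  exact ⟨y, hy, (hφ _ hN (cons y v) (In.cons hvN (hX.1 hy))).1 h2⟩

/-- singletons -/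
theorem sm_sing {M : V → Prop} (k : ZFm M) {C : V} (hC : M C) (hne : C.Nonempty) {y : V}
    (hy : M y) : Sm M C {y} := by
  refine Or.inr ⟨ZFSet.prod C {y}, ?_, ⟨⟨fun z hz => hz, fun z hz => ?_⟩, fun b hb => ?_⟩⟩
  · exact (Tm.prod (Tm.var 0) (Tm.sing (Tm.var 1))).1 M k (cons C fun _ => y)
      (In.cons (fun _ => hy) hC)
  · refine ⟨y, ZFSet.pair_mem_prod.2 ⟨hz, ZFSet.mem_singleton.2 rfl⟩, fun u hu => ?_⟩
    exact ZFSet.mem_singleton.1 (ZFSet.pair_mem_prod.1 hu).2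
  · obtain ⟨c, hc⟩ := hne
    exact ⟨c, hc, ZFSet.pair_mem_prod.2 ⟨hc, hb⟩⟩

/-- the data of `T_DO` -/
structure VK (M : V → Prop) (κ : Ordinal.{0}) (N : V) : Prop where
  k : ZFm M
  ino : Inac M κ
  mem : M N
  vk : IsVk M κ N
  gd : Gd N
  lim : IsSuccLimit κ
  e1 : ∀ x ∈ N, x = ∅ ∨ ∃ l < κ, ∃ f ∈ N, Onto f l.toZFSet x
  e2 : ∀ y ∈ N, ∀ x, M x → x ⊆ y → x ∈ N
  e4 : ∀ x ∈ N, ∀ f, M f → ZFSet.IsFunc x κ.toZFSet f → ∃ γ < κ, ∀ u ∈ x, app f u ∈ γ.toZFSet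
  e5 : ∀ x, M x → (x ∈ N ↔ x ⊆ N ∧ ∃ C ∈ N, Sm M C x)

namespace VK

variable {M : V → Prop} {κ : Ordinal.{0}} {N : V}

theorem rk (h : VK M κ N) {x : V} (hx : x ∈ N) : x.rank < κ := ((h.vk x).1 hx).2

theorem mx (h : VK M κ N) {x : V} (hx : x ∈ N) : M x := ((h.vk x).1 hx).1

theorem mkN (h : VK M κ N) {x : V} (h1 : M x) (h2 : x.rank < κ) : x ∈ N := (h.vk x).2 ⟨h1, h2⟩

theorem ord (h : VK M κ N) (α : Ordinal.{0}) : α.toZFSet ∈ N ↔ α < κ := by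
  constructor
  · intro h1
    have := h.rk h1
    rwa [Ordinal.rank_toZFSet] at this
  · intro h1
    refine h.mkN (h.k.trans _ h.ino.mem _ (Ordinal.toZFSet_mem_toZFSet_iff.2 h1)) ?_
    rwa [Ordinal.rank_toZFSet]

/-- `κ` is closed under adding `ω` -/
theorem add_om (hLAR : T_LAR) (h : VK M κ N) {β : Ordinal.{0}} (hβ : β < κ) : β + ω ≤ κ ∧
    β + ω < κ := by
  have h1 : Tm ZFm (fun _ w => resS om fun x => ((w 0).rank + x.rank).toZFSet) :=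
    (Tm.resS (g := fun _ u => ((u 1).rank + (u 0).rank).toZFSet) Tm.om
      (Tm.at2 (F := fun _ x y => (x.rank + y.rank).toZFSet) hLAR.1 (Tm.var 1) (Tm.var 0))).congr
      fun M k w hw => rfl
  have hMβ : M β.toZFSet := h.k.trans _ h.ino.mem _ (Ordinal.toZFSet_mem_toZFSet_iff.2 hβ)
  have h2 := h1.1 M h.k (fun _ => β.toZFSet) (fun _ => hMβ)
  have h3 : ∀ n : ℕ, β + n < κ := by
    intro n
    induction n with
    | zero => simpa using hβ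
    | succ n ih =>
      have := h.lim.succ_lt ih
      rwa [Order.succ_eq_add_one, add_assoc, ← Nat.cast_succ] at this
  obtain ⟨γ, hγ, hγ2⟩ := h.e4 om h.gd.om _ h2 (isFunc_resS _ _ _ fun x hx => by
    obtain ⟨n, rfl⟩ := mem_om.1 hx
    rw [Ordinal.rank_toZFSet, Ordinal.rank_toZFSet]
    exact Ordinal.toZFSet_mem_toZFSet_iff.2 (h3 n))
  have h4 : β + ω ≤ γ := by
    rw [Ordinal.add_le_iff_of_isSuccLimit Ordinal.isSuccLimit_omega0]
    intro c hc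
    obtain ⟨n, rfl⟩ := Ordinal.lt_omega0.1 hc
    have h5 := hγ2 (nS n) (nS_mem_om n)
    rw [app_resS (nS_mem_om n), Ordinal.rank_toZFSet, Ordinal.rank_toZFSet] at h5
    exact (Ordinal.toZFSet_mem_toZFSet_iff.1 h5).le
  exact ⟨(h4.trans_lt hγ).le, h4.trans_lt hγ⟩

/-- good sets -/
theorem good (hLAR : T_LAR) (h : VK M κ N) {y : V} (hy : y ∈ N) {l : Ordinal.{0}} (hl : l < κ) :
    ∃ C ∈ N, Gd C ∧ y ⊆ C ∧ l.toZFSet ⊆ C := by
  have hb : max (max y.rank l) ω < κ := max_lt (max_lt (h.rk hy) hl) h.ino.unc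
  have hβ := (h.add_om hLAR hb).2
  set β := max (max y.rank l) ω + ω with hβd
  have hlim : IsSuccLimit β := Ordinal.isSuccLimit_add _ Ordinal.isSuccLimit_omega0
  have hlt : max (max y.rank l) ω < β := lt_add_of_pos_right _ Ordinal.omega0_pos
  have hb : Tm ZFm (fun _ w => (w 0).sep fun y => rkS y ∈ w 1) :=
    (Tm.sep (R := fun _ u => rkS (u 0) ∈ u 2) (Dfb.mem (Tm.rkS (Tm.var 0)) (Tm.var 2))
      (Tm.var 0)).congr fun M k w hw => rfl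
  have hMβ : M β.toZFSet := h.k.trans _ h.ino.mem _ (Ordinal.toZFSet_mem_toZFSet_iff.2 hβ)
  have hMC : M (N.sep fun y => rkS y ∈ β.toZFSet) := hb.1 M h.k (cons N (cons β.toZFSet fun _ => β.toZFSet))
    (In.cons (In.cons (fun _ => hMβ) hMβ) h.mem)
  have hm : ∀ z, z ∈ (N.sep fun y => rkS y ∈ β.toZFSet) ↔ M z ∧ z.rank < β := by
    intro z
    rw [ZFSet.mem_sep]
    constructor
    · rintro ⟨h1, h2⟩
      exact ⟨h.mx h1, Ordinal.toZFSet_mem_toZFSet_iff.1 h2⟩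
    · rintro ⟨h1, h2⟩
      exact ⟨h.mkN h1 (h2.trans hβ), Ordinal.toZFSet_mem_toZFSet_iff.2 h2⟩
  refine ⟨_, h.mkN hMC ?_, ⟨?_, ?_, ?_⟩, ?_, ?_⟩
  · refine lt_of_le_of_lt ?_ hβ
    rw [ZFSet.rank_le_iff]
    intro z hz
    exact ((hm z).1 hz).2
  · intro z hz u hu
    obtain ⟨h1, h2⟩ := (hm z).1 hz
    exact (hm u).2 ⟨h.k.trans _ h1 u hu, (ZFSet.rank_lt_of_mem hu).trans h2⟩
  · refine (hm _).2 ⟨h.k.inf, ?_⟩
    rw [Ordinal.rank_toZFSet]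
    exact (le_max_right _ _).trans_lt hlt
  · intro u hu w hw
    obtain ⟨h1, h2⟩ := (hm u).1 hu
    obtain ⟨h3, h4⟩ := (hm w).1 hw
    refine (hm _).2 ⟨h.k.mpair h1 h3, ?_⟩
    unfold ZFSet.pair
    rw [ZFSet.rank_pair, ZFSet.rank_pair, ZFSet.rank_singleton]
    refine max_lt (hlim.succ_lt (hlim.succ_lt h2)) (hlim.succ_lt (max_lt (hlim.succ_lt h2) (hlim.succ_lt h4)))
  · intro z hz
    refine (hm z).2 ⟨h.k.trans _ (h.mx hy) z hz, (ZFSet.rank_lt_of_mem hz).trans_le ?_⟩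
    exact ((le_max_left _ _).trans (le_max_left _ _)).trans hlt.le
  · intro z hz
    obtain ⟨α, hα, rfl⟩ := Ordinal.mem_toZFSet_iff.1 hz
    refine (hm _).2 ⟨h.k.trans _ h.ino.mem _ (Ordinal.toZFSet_mem_toZFSet_iff.2 (hα.trans hl)), ?_⟩
    rw [Ordinal.rank_toZFSet]
    exact hα.trans_le (((le_max_right _ _).trans (le_max_left _ _)).trans hlt.le)

/-- small sets of ordinals are bounded -/
theorem bd (hDF : T_DF) (h : VK M κ N) {C Z : V} (hC : C ∈ N) (hG : Gd C) (hZ : M Z)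
    (hs : Sm M C Z) : (Z ∩ κ.toZFSet).rank < κ := by
  have hMi : M (Z ∩ κ.toZFSet) := (Tm.inter (Tm.var 0) (Tm.var 1)).1 M h.k
    (cons Z fun _ => κ.toZFSet) (In.cons (fun _ => h.ino.mem) hZ)
  obtain ⟨-, -, d3, -⟩ := hDF M h.k C (h.mx hC) hG
  refine h.rk ((h.e5 _ hMi).2 ⟨fun z hz => ?_, C, hC, d3 _ Z hMi hs fun z hz =>
    (ZFSet.mem_inter.1 hz).1⟩)
  obtain ⟨α, hα, rfl⟩ := Ordinal.mem_toZFSet_iff.1 (ZFSet.mem_inter.1 hz).2
  exact (h.ord α).2 hα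

/-- `κ` is not small -/
theorem not_sm (h : VK M κ N) {C : V} (hC : C ∈ N) : ¬ Sm M C κ.toZFSet := by
  rintro (h1 | ⟨f, hf, hf2, hf3⟩)
  · have h2 : (ω : Ordinal.{0}).toZFSet ∈ κ.toZFSet := Ordinal.toZFSet_mem_toZFSet_iff.2 h.ino.unc
    rw [h1] at h2
    exact ZFSet.notMem_empty _ h2
  · obtain ⟨γ, hγ, hγ2⟩ := h.e4 C hC f hf hf2
    obtain ⟨u, hu, hu2⟩ := hf3 _ (Ordinal.toZFSet_mem_toZFSet_iff.2 hγ)
    have h3 := hγ2 u hu
    rw [app_eq (svl_of_isFunc hf2) hu2] at h3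
    exact ZFSet.mem_irrefl _ h3

end VK

/-- the closure point: an ordinal `l < κ` with `Dcl R (l ∪ P) ∩ κ = l` -/
theorem closure_point (hDB : T_DB) (hDC : T_DC) (hDF : T_DF) (hLAR : T_LAR)
    {M : V → Prop} {κ : Ordinal.{0}} {N : V} (h : VK M κ N) {R P A : V} {ρ : Ordinal.{0}}
    (hMR : M R) (hMP : M P) (hR : ZFm (· ∈ R)) (hA : A ∈ R) (hRA : R = LA A ρ) (hAP : A ∈ P)
    (hPR : P ⊆ R) (hκR : κ.toZFSet ⊆ R)
    (hP : ∀ l < κ, ∃ C ∈ N, Gd C ∧ Sm M C (l.toZFSet ∪ P)) :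
    ∃ l < κ, Dcl R (l.toZFSet ∪ P) ∩ κ.toZFSet = l.toZFSet ∧
      ElSub (Dcl R (l.toZFSet ∪ P)) R ∧ (l.toZFSet ∪ P) ⊆ Dcl R (l.toZFSet ∪ P) ∧
      ∃ C ∈ N, Gd C ∧ Sm M C (Dcl R (l.toZFSet ∪ P)) := by
  have k := h.k
  let F : (V → Prop) → (ℕ → V) → V := fun _ w => rkS (Dcl (w 1) (w 0 ∪ w 2) ∩ w 3)
  let G : (V → Prop) → (ℕ → V) → V := fun _ w => ∅
  have hF : Tm ZFm F := Tm.rkS (Tm.inter (Tm.at2 (F := fun _ x y => Dcl x y) hDB (Tm.var 1)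
    (Tm.union (Tm.var 0) (Tm.var 2))) (Tm.var 3))
  have hG : Tm ZFm G := Tm.empty
  let v : ℕ → V := cons R (cons P fun _ => κ.toZFSet)
  have hv : In M v := In.cons (In.cons (fun _ => h.ino.mem) hMP) hMR
  let s : ℕ → V := it F G M v
  have hs0 : s 0 = ∅ := rfl
  have hs1 : ∀ n, s (n + 1) = rkS (Dcl R (s n ∪ P) ∩ κ.toZFSet) := fun n => rfl
  have hMo : ∀ α < κ, M α.toZFSet := fun α hα =>
    k.trans _ h.ino.mem _ (Ordinal.toZFSet_mem_toZFSet_iff.2 hα)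
  have hMU : ∀ l < κ, M (l.toZFSet ∪ P) := fun l hl =>
    (Tm.union (Tm.var 0) (Tm.var 1)).1 M k (cons l.toZFSet fun _ => P)
      (In.cons (fun _ => hMP) (hMo l hl))
  have hSm : ∀ l < κ, ∃ C ∈ N, Gd C ∧ Sm M C (Dcl R (l.toZFSet ∪ P)) := by
    intro l hl
    obtain ⟨C, hC, hG, h1⟩ := hP l hl
    obtain ⟨-, -, -, -, -, -, -, d8, -⟩ := hDF M k C (h.mx hC) hG
    exact ⟨C, hC, hG, d8 R _ hMR (hMU l hl) h1⟩
  have hMD : ∀ l < κ, M (Dcl R (l.toZFSet ∪ P)) := fun l hl =>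
    hDB.1 M k (cons R fun _ => l.toZFSet ∪ P) (In.cons (fun _ => hMU l hl) hMR)
  have hb : ∀ l < κ, (Dcl R (l.toZFSet ∪ P) ∩ κ.toZFSet).rank < κ := by
    intro l hl
    obtain ⟨C, hC, hG, h1⟩ := hSm l hl
    exact h.bd hDF hC hG (hMD l hl) h1
  have hsub : ∀ l < κ, (l.toZFSet ∪ P) ⊆ R := by
    intro l hl z hz
    rcases ZFSet.mem_union.1 hz with hz | hz
    · exact hκR ((Ordinal.toZFSet_subset_toZFSet_iff.2 hl.le) hz)
    · exact hPR hz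
  have hDc : ∀ l < κ, ElSub (Dcl R (l.toZFSet ∪ P)) R ∧
      (l.toZFSet ∪ P) ⊆ Dcl R (l.toZFSet ∪ P) := by
    intro l hl
    obtain ⟨g1, g2, g3, -⟩ := hDC R A ρ hR hA hRA (l.toZFSet ∪ P) (hsub l hl)
      (Or.inr (ZFSet.mem_union.2 (Or.inr hAP)))
    exact ⟨g1, g3⟩
  let lo : ℕ → Ordinal.{0} := fun n => (s n).rank
  have hlo : ∀ n, s n = (lo n).toZFSet ∧ lo n < κ := by
    intro n
    induction n with
    | zero =>
      constructor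
      · show s 0 = (s 0).rank.toZFSet
        rw [hs0, ZFSet.rank_empty, Ordinal.toZFSet_zero]
      · show (s 0).rank < κ
        rw [hs0, ZFSet.rank_empty]
        exact lt_trans Ordinal.omega0_pos h.ino.unc
    | succ n ih =>
      have h1 : s (n + 1) = (Dcl R ((lo n).toZFSet ∪ P) ∩ κ.toZFSet).rank.toZFSet := by
        rw [hs1, ih.1]
        rfl
      have h2 : lo (n + 1) = (Dcl R ((lo n).toZFSet ∪ P) ∩ κ.toZFSet).rank := by
        show (s (n + 1)).rank = _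
        rw [h1, Ordinal.rank_toZFSet]
      rw [h2]
      exact ⟨h1, hb _ ih.2⟩
  have hlo1 : ∀ n, lo (n + 1) = (Dcl R ((lo n).toZFSet ∪ P) ∩ κ.toZFSet).rank := by
    intro n
    show (s (n + 1)).rank = _
    rw [hs1, ← (hlo n).1]
    exact Ordinal.rank_toZFSet _
  have hmono : ∀ n, lo n ≤ lo (n + 1) := by
    intro n
    rw [hlo1]
    refine (Ordinal.rank_toZFSet (lo n)).ge.trans (ZFSet.rank_mono fun z hz => ?_)
    exact ZFSet.mem_inter.2 ⟨(hDc _ (hlo n).2).2 (ZFSet.mem_union.2 (Or.inl hz)),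
      Ordinal.toZFSet_subset_toZFSet_iff.2 (hlo n).2.le hz⟩
  have hMs : M (resS om fun x => it F G M v (nn x)) :=
    (Tm.resS (g := fun M u => it F G M (fun i => u (i + 1)) (nn (u 0))) Tm.om (tm_it hF hG)).1
      M k v hv
  obtain ⟨γ, hγ, hγ2⟩ := h.e4 om h.gd.om _ hMs (isFunc_resS _ _ _ fun x hx => by
    obtain ⟨n, rfl⟩ := mem_om.1 hx
    rw [nn_nS]
    show s n ∈ _
    rw [(hlo n).1]
    exact Ordinal.toZFSet_mem_toZFSet_iff.2 (hlo n).2)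
  have hγ3 : ∀ n, lo n < γ := by
    intro n
    have h1 := hγ2 (nS n) (nS_mem_om n)
    rw [app_resS (nS_mem_om n), nn_nS] at h1
    have h2 : s n ∈ γ.toZFSet := h1
    rw [(hlo n).1] at h2
    exact Ordinal.toZFSet_mem_toZFSet_iff.1 h2
  let S : Set Ordinal.{0} := {β | ∀ n, lo n ≤ β}
  have hS : γ ∈ S := fun n => (hγ3 n).le
  have hl1 : sInf S ∈ S := csInf_mem ⟨γ, hS⟩
  have hl2 : ∀ β < sInf S, ∃ n, β < lo n := by
    intro β hβ
    by_contra hc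
    push Not at hc
    exact absurd (csInf_le' (show β ∈ S from hc)) (not_le.2 hβ)
  have hlκ : sInf S < κ := (csInf_le' hS).trans_lt hγ
  refine ⟨sInf S, hlκ, ?_, (hDc _ hlκ).1, (hDc _ hlκ).2, hSm _ hlκ⟩
  ext z
  rw [ZFSet.mem_inter]
  constructor
  · rintro ⟨hz, hzκ⟩
    obtain ⟨n, hn⟩ := Dcl_chain (fun n => (lo n).toZFSet ∪ P) (fun n p hp => by
      rcases ZFSet.mem_union.1 hp with hp | hp
      · exact ZFSet.mem_union.2 (Or.inl (Ordinal.toZFSet_subset_toZFSet_iff.2 (hmono n) hp))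
      · exact ZFSet.mem_union.2 (Or.inr hp)) ((sInf S).toZFSet ∪ P) (fun p hp => by
        rcases ZFSet.mem_union.1 hp with hp | hp
        · obtain ⟨β, hβ, rfl⟩ := Ordinal.mem_toZFSet_iff.1 hp
          obtain ⟨n, hn⟩ := hl2 β hβ
          exact ⟨n, ZFSet.mem_union.2 (Or.inl (Ordinal.toZFSet_mem_toZFSet_iff.2 hn))⟩
        · exact ⟨0, ZFSet.mem_union.2 (Or.inr hp)⟩) hz
    obtain ⟨ζ, hζ, rfl⟩ := Ordinal.mem_toZFSet_iff.1 hzκ
    have h1 : ζ.toZFSet ∈ Dcl R ((lo n).toZFSet ∪ P) ∩ κ.toZFSet := ZFSet.mem_inter.2 ⟨hn, hzκ⟩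
    have h2 := ZFSet.rank_lt_of_mem h1
    rw [Ordinal.rank_toZFSet, ← hlo1] at h2
    exact Ordinal.toZFSet_mem_toZFSet_iff.2 (h2.trans_le (hl1 _))
  · intro hz
    exact ⟨(hDc _ hlκ).2 (ZFSet.mem_union.2 (Or.inl hz)),
      Ordinal.toZFSet_subset_toZFSet_iff.2 hlκ.le hz⟩

/-- DR -/
theorem dr (hDB : T_DB) (hDC : T_DC) (hDE : T_DE) (hDF : T_DF) (hDJ : T_DJ) (hDK : T_DK)
    (hDL : T_DL) (hDO : T_DO) (hLAR : T_LAR) (hLHE : T_LHE) : T_DR := by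
  intro a κ θ hB haB hκ hrefl ha1 ha2 x hxB hxr
  obtain ⟨N, hMN, hVk, hGd, hlim, e1, e2, e3, e4, e5⟩ := hDO (· ∈ LA a θ) κ hB hκ
  have k : ZFm (· ∈ LA a θ) := hB.toZFm
  have h : VK (· ∈ LA a θ) κ N := ⟨k, hκ, hMN, hVk, hGd, hlim, e1, e2, e4, e5⟩
  have hxN : x ∈ N := h.mkN hxB hxr
  have hθ : IsSuccLimit θ :=
    (hLHE ∅ a θ (fun z hz => absurd hz (ZFSet.notMem_empty _)) k k.mempty haB).1
  -- the level
  obtain ⟨ρ, hρ, hRz, haR, hNR, hxR, hκR⟩ : ∃ ρ < θ, ZFm (· ∈ LA a ρ) ∧ a ∈ LA a ρ ∧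
      N ∈ LA a ρ ∧ x ∈ LA a ρ ∧ κ.toZFSet ∈ LA a ρ := by
    obtain ⟨r1, hr1, g1⟩ := (mem_Lh_limit hθ).1 haB
    obtain ⟨r2, hr2, g2⟩ := (mem_Lh_limit hθ).1 hMN
    obtain ⟨r3, hr3, g3⟩ := (mem_Lh_limit hθ).1 hxB
    obtain ⟨r4, hr4, g4⟩ := (mem_Lh_limit hθ).1 hκ.mem
    obtain ⟨ρ, h1, h2, h3⟩ := hrefl (max (max r1 r2) (max r3 r4))
      (max_lt (max_lt hr1 hr2) (max_lt hr3 hr4))
    refine ⟨ρ, h2, h3, Lh_mono ?_ g1, Lh_mono ?_ g2, Lh_mono ?_ g3, Lh_mono ?_ g4⟩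
    · exact ((le_max_left _ _).trans (le_max_left _ _)).trans h1.le
    · exact ((le_max_right _ _).trans (le_max_left _ _)).trans h1.le
    · exact ((le_max_left _ _).trans (le_max_right _ _)).trans h1.le
    · exact ((le_max_right _ _).trans (le_max_right _ _)).trans h1.le
  set R := LA a ρ with hRd
  have hRB : R ∈ LA a θ := Lh_mem hρ
  have hRtr : ∀ y ∈ R, ∀ z ∈ y, z ∈ R := hRz.trans
  let P : V := insert x (insert a (insert κ.toZFSet {N}))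
  have hPm : ∀ z, z ∈ P ↔ z = x ∨ z = a ∨ z = κ.toZFSet ∨ z = N := by
    intro z
    show z ∈ insert x (insert a (insert κ.toZFSet ({N} : V))) ↔ _
    rw [ZFSet.mem_insert_iff, ZFSet.mem_insert_iff, ZFSet.mem_insert_iff, ZFSet.mem_singleton]
  have hMP : P ∈ LA a θ := (Tm.ins (Tm.var 0) (Tm.ins (Tm.var 1) (Tm.ins (Tm.var 2)
    (Tm.sing (Tm.var 3))))).1 (· ∈ LA a θ) k (cons x (cons a (cons κ.toZFSet fun _ => N)))
      (In.cons (In.cons (In.cons (fun _ => hMN) hκ.mem) haB) hxB)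
  have hPR : P ⊆ R := by
    intro z hz
    rcases (hPm z).1 hz with rfl | rfl | rfl | rfl
    · exact hxR
    · exact haR
    · exact hκR
    · exact hNR
  have hPs : ∀ l < κ, ∃ C ∈ N, Gd C ∧ Sm (· ∈ LA a θ) C (l.toZFSet ∪ P) := by
    intro l hl
    obtain ⟨C, hC, hG, h1, h2⟩ := h.good hLAR hxN hl
    refine ⟨C, hC, hG, ?_⟩
    obtain ⟨-, d2, d3, -, d5, -⟩ := hDF (· ∈ LA a θ) k C (h.mx hC) hG
    have hne : C.Nonempty := ⟨_, hG.om⟩
    have s1 : ∀ y, y ∈ LA a θ → Sm (· ∈ LA a θ) C {y} := fun y hy => sm_sing k (h.mx hC) hne hy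
    have s2 := d5 _ _ (d2 l.toZFSet (k.trans _ hκ.mem _
      (Ordinal.toZFSet_mem_toZFSet_iff.2 hl)) h2) (d5 _ _ (s1 x hxB) (d5 _ _ (s1 a haB)
      (d5 _ _ (s1 _ hκ.mem) (s1 N hMN))))
    have e : P = {x} ∪ ({a} ∪ ({κ.toZFSet} ∪ ({N} : V))) := by
      ext z
      rw [hPm]
      simp only [ZFSet.mem_union, ZFSet.mem_singleton]
    rwa [e]
  obtain ⟨l, hl, hXl, hX, hYX, C, hC, hG, hSm⟩ := closure_point hDB hDC hDF hLAR h hRB hMP hRz
    haR hRd ((hPm a).2 (Or.inr (Or.inl rfl))) hPR (fun z hz => hRtr _ hκR z hz) hPs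
  set X := Dcl R (l.toZFSet ∪ P) with hXd
  have hXP : ∀ z ∈ P, z ∈ X := fun z hz => hYX (ZFSet.mem_union.2 (Or.inr hz))
  have hxX : x ∈ X := hXP x ((hPm x).2 (Or.inl rfl))
  have haX : a ∈ X := hXP a ((hPm a).2 (Or.inr (Or.inl rfl)))
  have hκX : κ.toZFSet ∈ X := hXP _ ((hPm _).2 (Or.inr (Or.inr (Or.inl rfl))))
  have hNX : N ∈ X := hXP _ ((hPm _).2 (Or.inr (Or.inr (Or.inr rfl))))
  have hlX : ∀ z ∈ l.toZFSet, z ∈ X := fun z hz => hYX (ZFSet.mem_union.2 (Or.inl hz))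
  have hκl : ∀ z ∈ X, z ∈ κ.toZFSet → z ∈ l.toZFSet := by
    intro z hz hz2
    rw [← hXl]
    exact ZFSet.mem_inter.2 ⟨hz, hz2⟩
  have hcl : ∀ F : (V → Prop) → (ℕ → V) → V, Tm ZFm F → ∀ v : ℕ → V, (∀ i, v i ∈ X) →
      F (· ∈ R) v ∈ X := hDE.1 R X hX hRz
  -- elements of `X ∩ N` are subsets of `X`
  have hsub : ∀ y ∈ X, y ∈ N → ∀ b ∈ y, b ∈ X := by
    intro y hy hyN b hb
    rcases e1 y hyN with rfl | ⟨l', hl', f, hf, hf2⟩
    · exact absurd hb (ZFSet.notMem_empty _)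
    · have hRel : Dfb ZFm (fun _ w => ∃ l' ∈ w 3, w 0 ∈ w 2 ∧ Onto (w 0) l' (w 1)) :=
        (Dfb.bex (R := fun _ u => u 1 ∈ u 3 ∧ Onto (u 1) (u 0) (u 2)) ktr_zfm (Tm.var 3)
          ((Dfb.mem (Tm.var 1) (Tm.var 3)).and
            (Dfb.onto (Tm.var 1) (Tm.var 0) (Tm.var 2)))).congr fun M k w hw => Iff.rfl
      obtain ⟨g, hg, l'', hl'', hgN, hgo⟩ := wit hX hRz hRel
        (cons y (cons N fun _ => κ.toZFSet)) (fun i => by
          rcases i with _ | _ | i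
          · exact hy
          · exact hNX
          · exact hκX) ⟨f, hRtr _ hNR f hf, l'.toZFSet, Ordinal.toZFSet_mem_toZFSet_iff.2 hl',
            hf, hf2⟩
      have hgo' : Onto g l'' y := hgo
      have hl''κ : l'' ∈ κ.toZFSet := hl''
      have e : dm g = l'' := by
        ext z
        rw [mem_dm]
        constructor
        · rintro ⟨w, hw⟩
          exact (ZFSet.pair_mem_prod.1 (hgo'.1.1 hw)).1
        · intro hz
          exact ⟨_, pair_app_mem hgo'.1 hz⟩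
      have h1 : l'' ∈ X := by
        have h2 := hcl _ (Tm.dm (Tm.var 0)) (fun _ => g) (fun _ => hg)
        rwa [e] at h2
      have h2 := hκl _ h1 hl''κ
      obtain ⟨c, hc, hc2⟩ := hgo'.2 b hb
      obtain ⟨α, hα, rfl⟩ := Ordinal.mem_toZFSet_iff.1 h2
      obtain ⟨β, hβ, rfl⟩ := Ordinal.mem_toZFSet_iff.1 hc
      have hcX : β.toZFSet ∈ X := hlX _ (Ordinal.toZFSet_mem_toZFSet_iff.2 (hβ.trans hα))
      have h3 := hcl _ (Tm.app (Tm.var 0) (Tm.var 1)) (cons g fun _ => β.toZFSet) (fun i => by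
        cases i with
        | zero => exact hg
        | succ n => exact hcX)
      have h4 : app g β.toZFSet = b := app_eq (svl_of_isFunc hgo'.1) hc2
      rw [← h4]
      exact h3
  have hNtr : ∀ y ∈ N, ∀ b ∈ y, b ∈ N := fun y hy b hb => hGd.tr y hy hb
  have hXNtr : (X ∩ N).IsTransitive := by
    intro y hy b hb
    obtain ⟨h1, h2⟩ := ZFSet.mem_inter.1 hy
    exact ZFSet.mem_inter.2 ⟨hsub y h1 h2 b hb, hNtr y h2 b hb⟩
  -- the collapse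
  obtain ⟨f, hfe, hftr, hf1, hf2, hf3, hf4⟩ := hDK R X (fun y hy z hz => hRtr y hy z hz)
    ⟨_, haR⟩ hX
  have hfix : ∀ u ∈ X, u ∈ N → clp X u = u := fun u h1 h2 =>
    (hf4 (X ∩ N) hXNtr (fun z hz => (ZFSet.mem_inter.1 hz).1) u
      (ZFSet.mem_inter.2 ⟨h1, h2⟩)).1
  have hane : clp X a ∈ imS X fun x => clp X x := mem_imS.2 ⟨a, haX, rfl⟩
  obtain ⟨τ', hτ1, hτ2, hτ3⟩ := hDL _ R f (clp X a) ρ hfe hftr ⟨_, hane⟩ hRz hane
    (by rw [hf2 a haX])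
  have hτ : τ' < κ := by
    by_contra hc
    have hc := not_lt.1 hc
    obtain ⟨-, -, d3, -, -, -, d7, -⟩ := hDF (· ∈ LA a θ) k C (h.mx hC) hG
    refine h.not_sm hC ?_
    have hMX : X ∈ LA a θ := hDB.1 (· ∈ LA a θ) k (cons R fun _ => l.toZFSet ∪ P)
      (In.cons (fun _ => (Tm.union (Tm.var 0) (Tm.var 1)).1 (· ∈ LA a θ) k
        (cons l.toZFSet fun _ => P) (In.cons (fun _ => hMP) (k.trans _ hκ.mem _
          (Ordinal.toZFSet_mem_toZFSet_iff.2 hl)))) hRB)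
    have hMf : (resS X fun x => clp X x) ∈ LA a θ :=
      (Tm.resS (g := fun _ u => clp (u 1) (u 0)) (Tm.var 0)
        (Tm.at2 (F := fun _ x y => clp x y) hDJ.2 (Tm.var 1) (Tm.var 0))).1 (· ∈ LA a θ) k
        (fun _ => X) (fun _ => hMX)
    refine d3 _ _ hκ.mem (d7 X _ hSm hMf (svl_resS _ _) (dm_resS _ _)) fun z hz => ?_
    obtain ⟨α, hα, rfl⟩ := Ordinal.mem_toZFSet_iff.1 hz
    have h1 := (hτ3 α).2 (hα.trans_le hc)
    obtain ⟨u, hu, hu2⟩ := mem_imS.1 h1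
    exact mem_rg.2 ⟨u, pair_mem_resS.2 ⟨hu, hu2.symm⟩⟩
  have hab : clp X a = a.sep fun z => fst z ∈ l.toZFSet := by
    have hzN : ∀ z ∈ a, z ∈ N := by
      intro z hz
      obtain ⟨i, hi, q, rfl⟩ := ha1 z hz
      obtain ⟨δ, hδ, hδ2⟩ := ha2 i hi
      have h1 := k.of_pair_mem haB hz
      exact hGd.pr _ ((h.ord i).2 hi) _ (h.mkN h1.2 ((hδ2 q hz).trans hδ))
    have key : ∀ z ∈ a, z ∈ X ↔ fst z ∈ l.toZFSet := by
      intro z hz
      obtain ⟨i, hi, q, rfl⟩ := ha1 z hz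
      rw [fst_pair]
      constructor
      · intro h1
        have h2 := hcl _ (Tm.fst (Tm.var 0)) (fun _ => ZFSet.pair i.toZFSet q) (fun _ => h1)
        rw [fst_pair] at h2
        exact hκl _ h2 (Ordinal.toZFSet_mem_toZFSet_iff.2 hi)
      · intro h1
        have hiX := hlX _ h1
        have hT : Tm ZFm (fun _ w => (rg (w 0)).sep fun q => ZFSet.pair (w 1) q ∈ w 0) :=
          (Tm.sep (R := fun _ u => ZFSet.pair (u 2) (u 0) ∈ u 1) (Dfb.pairMem (Tm.var 2)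
            (Tm.var 0) (Tm.var 1)) (Tm.rg (Tm.var 0))).congr fun M k w hw => rfl
        have h2 := hcl _ hT (cons a fun _ => i.toZFSet) (fun i => by
          cases i with
          | zero => exact haX
          | succ n => exact hiX)
        have h3 := hT.1 (· ∈ LA a θ) k (cons a fun _ => i.toZFSet)
          (In.cons (fun _ => k.trans _ hκ.mem _ (Ordinal.toZFSet_mem_toZFSet_iff.2 hi)) haB)
        obtain ⟨δ, hδ, hδ2⟩ := ha2 i hi
        have h4 := h.mkN h3 (by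
          refine lt_of_le_of_lt ?_ hδ
          rw [ZFSet.rank_le_iff]
          intro u hu
          exact hδ2 u (ZFSet.mem_sep.1 hu).2)
        have h5 := hsub _ h2 h4 q (ZFSet.mem_sep.2 ⟨mem_rg.2 ⟨_, hz⟩, hz⟩)
        exact hcl _ (Tm.pair (Tm.var 0) (Tm.var 1)) (cons i.toZFSet fun _ => q) (fun i => by
          cases i with
          | zero => exact hiX
          | succ n => exact h5)
    ext y
    rw [hDJ.1 X a y, ZFSet.mem_sep]
    constructor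
    · rintro ⟨z, hz, hzX, rfl⟩
      rw [hfix z hzX (hzN z hz)]
      exact ⟨hz, (key z hz).1 hzX⟩
    · rintro ⟨hy, hy2⟩
      have h1 := (key y hy).2 hy2
      exact ⟨y, hy, h1, (hfix y h1 (hzN y hy)).symm⟩
  refine ⟨l, hl, τ', hτ, ?_⟩
  rw [← hab, ← hτ1]
  exact mem_imS.2 ⟨x, hxX, hfix x hxX hxN⟩

end CAA.H75
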