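import Pool.Agent.H1.CA.TarP

/-! CG, preparation: definability of the relations which are forced. -/

set_option linter.unusedVariables false

open Ordinal Order Set
open scoped ZFSet

namespace CAA.H75

open SF CAA

/-- the set with the index `e` in the model of `a_β(G)` -/
noncomputable def Ct (ix : V → V → V) (κ tf c β e G : V) : V :=
  ix (aS κ tf (Xs κ G) (Hs κ c (Xs κ G)) β) e

/-- club subsets of ordinals, in terms of sets -/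
def ClS (m C : V) : Prop := C ⊆ m ∧ (∀ x ∈ m, ∃ y ∈ C, x ∈ y) ∧
  ∀ d ∈ m, d ≠ ∅ → (∀ x ∈ d, ∃ y ∈ C, x ∈ y ∧ y ∈ d) → d ∈ C

theorem clS_iff (μ : Ordinal.{0}) (C : V) : ClS μ.toZFSet C ↔ IsClub μ C := by
  constructor
  · rintro ⟨h1, h2, h3⟩
    refine ⟨h1, fun ξ hξ => ?_, fun δ hδ h0 h => h3 _ (Ordinal.toZFSet_mem_toZFSet_iff.2 hδ) ?_ ?_⟩
    · obtain ⟨y, hy, hy2⟩ := h2 _ (Ordinal.toZFSet_mem_toZFSet_iff.2 hξ)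
      obtain ⟨η, hη, rfl⟩ := Ordinal.mem_toZFSet_iff.1 (h1 hy)
      exact ⟨η, Ordinal.toZFSet_mem_toZFSet_iff.1 hy2, hy⟩
    · intro hc
      apply h0
      apply Ordinal.toZFSet_injective
      rw [hc, Ordinal.toZFSet_zero]
    · intro x hx
      obtain ⟨ξ, hξ, rfl⟩ := Ordinal.mem_toZFSet_iff.1 hx
      obtain ⟨η, g1, g2, g3⟩ := h ξ hξ
      exact ⟨_, g3, Ordinal.toZFSet_mem_toZFSet_iff.2 g1, Ordinal.toZFSet_mem_toZFSet_iff.2 g2⟩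
  · rintro ⟨h1, h2, h3⟩
    refine ⟨h1, fun x hx => ?_, fun d hd h0 h => ?_⟩
    · obtain ⟨ξ, hξ, rfl⟩ := Ordinal.mem_toZFSet_iff.1 hx
      obtain ⟨η, g1, g2⟩ := h2 ξ hξ
      exact ⟨_, g2, Ordinal.toZFSet_mem_toZFSet_iff.2 g1⟩
    · obtain ⟨δ, hδ, rfl⟩ := Ordinal.mem_toZFSet_iff.1 hd
      refine h3 δ hδ ?_ fun ξ hξ => ?_
      · rintro rfl
        exact h0 Ordinal.toZFSet_zero
      · obtain ⟨y, hy, g1, g2⟩ := h _ (Ordinal.toZFSet_mem_toZFSet_iff.2 hξ)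
        obtain ⟨η, hη, rfl⟩ := Ordinal.mem_toZFSet_iff.1 g2
        exact ⟨η, Ordinal.toZFSet_mem_toZFSet_iff.1 g1, hη, hy⟩

theorem dfb_ClS : Dfb ZFm (fun _ v => ClS (v 0) (v 1)) := by
  refine (Dfb.subset (Tm.var 1) (Tm.var 0)).and (Dfb.and ?_ ?_)
  · refine (Dfb.ball (R := fun _ v => ∃ y ∈ v 2, v 0 ∈ y) ktr_zfm (Tm.var 0) ?_).congr
      fun M k v hv => Iff.rfl
    exact (Dfb.bex (R := fun _ v => v 1 ∈ v 0) ktr_zfm (Tm.var 2)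
      (Dfb.mem (Tm.var 1) (Tm.var 0))).congr fun M k v hv => Iff.rfl
  · refine (Dfb.ball (R := fun _ v => v 0 ≠ ∅ → (∀ x ∈ v 0, ∃ y ∈ v 2, x ∈ y ∧ y ∈ v 0) →
      v 0 ∈ v 2) ktr_zfm (Tm.var 0) ?_).congr fun M k v hv => Iff.rfl
    refine (Dfb.eq (Tm.var 0) Tm.empty).not.imp (Dfb.imp ?_ (Dfb.mem (Tm.var 0) (Tm.var 2)))
    refine (Dfb.ball (R := fun _ v => ∃ y ∈ v 3, v 0 ∈ y ∧ y ∈ v 1) ktr_zfm (Tm.var 0) ?_).congr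
      fun M k v hv => Iff.rfl
    exact (Dfb.bex (R := fun _ v => v 1 ∈ v 0 ∧ v 0 ∈ v 2) ktr_zfm (Tm.var 3)
      ((Dfb.mem (Tm.var 1) (Tm.var 0)).and (Dfb.mem (Tm.var 0) (Tm.var 2)))).congr
        fun M k v hv => Iff.rfl

section

variable {f0 f1 f2 f3 f4 f5 : (V → Prop) → (ℕ → V) → V}

theorem tm_X (hPC : T_PC) (h0 : Tm ZFm f0) (h1 : Tm ZFm f1) :
    Tm ZFm (fun M v => Xs (f0 M v) (f1 M v)) :=
  Tm.at2 (F := fun _ x y => Xs x y) hPC.2.2.2.2.2.2.1 h0 h1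

theorem tm_H (hPC : T_PC) (h0 : Tm ZFm f0) (h1 : Tm ZFm f1) (h2 : Tm ZFm f2) :
    Tm ZFm (fun M v => Hs (f0 M v) (f1 M v) (f2 M v)) :=
  Tm.at3 (F := fun _ x y z => Hs x y z) hPC.2.2.2.2.2.2.2.1 h0 h1 h2

theorem tm_A (hPC : T_PC) (h0 : Tm ZFm f0) (h1 : Tm ZFm f1) (h2 : Tm ZFm f2) (h3 : Tm ZFm f3)
    (h4 : Tm ZFm f4) : Tm ZFm (fun M v => As (f0 M v) (f1 M v) (f2 M v) (f3 M v) (f4 M v)) :=
  (hPC.2.2.2.2.2.2.2.2.2.2.1.comp (args [f0, f1, f2, f3, f4]) (tm_args _ (by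
    intro a ha
    simp only [List.mem_cons, List.not_mem_nil, or_false] at ha
    rcases ha with rfl | rfl | rfl | rfl | rfl <;> assumption))).congr fun M k v hv => rfl

theorem tm_a (hPC : T_PC) (h0 : Tm ZFm f0) (h1 : Tm ZFm f1) (h2 : Tm ZFm f2) (h3 : Tm ZFm f3)
    (h4 : Tm ZFm f4) : Tm ZFm (fun M v => aS (f0 M v) (f1 M v) (f2 M v) (f3 M v) (f4 M v)) :=
  (hPC.2.2.2.2.2.2.2.2.2.2.2.comp (args [f0, f1, f2, f3, f4]) (tm_args _ (by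
    intro a ha
    simp only [List.mem_cons, List.not_mem_nil, or_false] at ha
    rcases ha with rfl | rfl | rfl | rfl | rfl <;> assumption))).congr fun M k v hv => rfl

theorem tm_Ct (hPC : T_PC) {ix : V → V → V} (hix : IsIx ix) (h0 : Tm ZFm f0) (h1 : Tm ZFm f1)
    (h2 : Tm ZFm f2) (h3 : Tm ZFm f3) (h4 : Tm ZFm f4) (h5 : Tm ZFm f5) :
    Tm ZFm (fun M v => Ct ix (f0 M v) (f1 M v) (f2 M v) (f3 M v) (f4 M v) (f5 M v)) :=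
  Tm.at2 (F := fun _ x y => ix x y) hix.1
    (tm_a hPC h0 h1 (tm_X hPC h0 h5) (tm_H hPC h0 h2 (tm_X hPC h0 h5)) h3) h4

end

/-- the first relation: `w = (G, κ, tf, c, β, e, μ i, E i, i)` -/
def R1 (ix : V → V → V) (w : ℕ → V) : Prop :=
  w 8 ∉ As (w 1) (w 2) (Xs (w 1) (w 0)) (Hs (w 1) (w 3) (Xs (w 1) (w 0))) (w 4) ∧
  ClS (w 6) (Ct ix (w 1) (w 2) (w 3) (w 4) (w 5) (w 0)) ∧
  ∀ x ∈ Ct ix (w 1) (w 2) (w 3) (w 4) (w 5) (w 0), x ∉ w 7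

theorem dfb_R1 (hPC : T_PC) {ix : V → V → V} (hix : IsIx ix) : Dfb ZFm (fun _ w => R1 ix w) := by
  have h1 : Tm ZFm (fun _ w => Ct ix (w 1) (w 2) (w 3) (w 4) (w 5) (w 0)) :=
    tm_Ct hPC hix (Tm.var 1) (Tm.var 2) (Tm.var 3) (Tm.var 4) (Tm.var 5) (Tm.var 0)
  refine (Dfb.mem (Tm.var 8) (tm_A hPC (Tm.var 1) (Tm.var 2) (tm_X hPC (Tm.var 1) (Tm.var 0))
    (tm_H hPC (Tm.var 1) (Tm.var 3) (tm_X hPC (Tm.var 1) (Tm.var 0))) (Tm.var 4))).not.and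
    (Dfb.and (Dfb.at2 (P := fun _ x y => ClS x y) dfb_ClS (Tm.var 6) h1) ?_)
  exact (Dfb.ball (R := fun _ u => u 0 ∉ u 8) ktr_zfm h1
    (Dfb.mem (Tm.var 0) (Tm.var 8)).not).congr fun M k v hv => Iff.rfl

/-- `z` is the least element of `C` above `j` -/
def Nx (C j z : V) : Prop := z ∈ C ∧ j ∈ z ∧ ∀ y ∈ C, ¬ (j ∈ y ∧ y ∈ z)

/-- the second relation: `w = (G, z, j, κ, tf, c, β, e)` -/
def R2 (ix : V → V → V) (w : ℕ → V) : Prop :=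
  Nx (Ct ix (w 3) (w 4) (w 5) (w 6) (w 7) (w 0)) (w 2) (w 1)

theorem dfb_R2 (hPC : T_PC) {ix : V → V → V} (hix : IsIx ix) : Dfb ZFm (fun _ w => R2 ix w) := by
  have h1 : Tm ZFm (fun _ w => Ct ix (w 3) (w 4) (w 5) (w 6) (w 7) (w 0)) :=
    tm_Ct hPC hix (Tm.var 3) (Tm.var 4) (Tm.var 5) (Tm.var 6) (Tm.var 7) (Tm.var 0)
  refine (Dfb.mem (Tm.var 1) h1).and ((Dfb.mem (Tm.var 2) (Tm.var 1)).and ?_)
  exact (Dfb.ball (R := fun _ u => ¬ (u 3 ∈ u 0 ∧ u 0 ∈ u 2)) ktr_zfm h1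
    ((Dfb.mem (Tm.var 3) (Tm.var 0)).and (Dfb.mem (Tm.var 0) (Tm.var 2))).not).congr
      fun M k v hv => Iff.rfl

end CAA.H75
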