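import Pool.Agent.H75.CA.CGa

/-! CG, preparation: sets of conditions in the ground model. -/

set_option linter.unusedVariables false

open Ordinal Order Set
open scoped ZFSet

namespace CAA.H75

open SF CAA

/-- the family of dense sets: `w = (μ i, c, p0, r, Par)` -/
noncomputable def Wt (O2 : (V → Prop) → (ℕ → V) → V) (M : V → Prop) (w : ℕ → V) : V :=
  resS (w 0) fun j => (w 1).sep fun p => ZFSet.pair p (w 2) ∈ w 3 ∧
    ∃ z ∈ w 0, p ∈ O2 M (cons (w 1) (cons (w 3) (cons z (cons j fun n => w (n + 4)))))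

theorem tm_Wt {O2 : (V → Prop) → (ℕ → V) → V} (hO : Tm ZFm O2) : Tm ZFm (Wt O2) := by
  refine (Tm.resS (g := fun M u => (u 2).sep fun p => ZFSet.pair p (u 3) ∈ u 4 ∧
    ∃ z ∈ u 1, p ∈ O2 M (cons (u 2) (cons (u 4) (cons z (cons (u 0) fun n => u (n + 5))))))
    (Tm.var 0) ?_).congr fun M k w hw => rfl
  refine (Tm.sep (R := fun M u => ZFSet.pair (u 0) (u 4) ∈ u 5 ∧
    ∃ z ∈ u 2, u 0 ∈ O2 M (cons (u 3) (cons (u 5) (cons z (cons (u 1) fun n => u (n + 6))))))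
    ?_ (Tm.var 2)).congr fun M k w hw => rfl
  refine (Dfb.mem (Tm.pair (Tm.var 0) (Tm.var 4)) (Tm.var 5)).and ?_
  refine (Dfb.bex (R := fun M u => u 1 ∈ O2 M (cons (u 4) (cons (u 6) (cons (u 0)
    (cons (u 2) fun n => u (n + 7)))))) ktr_zfm (Tm.var 2) ?_).congr fun M k w hw => Iff.rfl
  refine Dfb.mem (Tm.var 1) ((hO.comp (fun i => match i with
    | 0 => fun _ u => u 4 | 1 => fun _ u => u 6 | 2 => fun _ u => u 0 | 3 => fun _ u => u 2
    | n + 4 => fun _ u => u (n + 7)) ?_).congr ?_)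
  · intro i
    rcases i with _ | _ | _ | _ | n <;> exact Tm.var _
  · intro M k w hw
    congr 1
    funext i
    rcases i with _ | _ | _ | _ | n <;> rfl

/-- the values which are forced: `u = (j, C, μ i, c, r, I, p0 i, v, i, Par)` -/
noncomputable def ft (O2 : (V → Prop) → (ℕ → V) → V) (M : V → Prop) (u : ℕ → V) : V :=
  (ZFSet.prod (u 1) (u 2)).sep fun t => fst t ∈ u 3 ∧
    cat (u 5) (upd (fst t) (u 8) (u 6)) (u 7) ∈
      O2 M (cons (u 3) (cons (u 4) (cons (snd t) (cons (u 0) fun n => u (n + 9)))))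

theorem tm_ft (hPC : T_PC) {O2 : (V → Prop) → (ℕ → V) → V} (hO : Tm ZFm O2) :
    Tm ZFm (ft O2) := by
  refine (Tm.sep (R := fun M u => fst (u 0) ∈ u 4 ∧
    cat (u 6) (upd (fst (u 0)) (u 9) (u 7)) (u 8) ∈
      O2 M (cons (u 4) (cons (u 5) (cons (snd (u 0)) (cons (u 1) fun n => u (n + 10)))))) ?_
    (Tm.prod (Tm.var 1) (Tm.var 2))).congr fun M k w hw => rfl
  refine (Dfb.mem (Tm.fst (Tm.var 0)) (Tm.var 4)).and (Dfb.mem ?_ ?_)
  · exact Tm.at3 (F := fun _ x y z => cat x y z) hPC.2.2.2.1 (Tm.var 6)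
      (Tm.at3 (F := fun _ x y z => upd x y z) hPC.2.2.2.2.1 (Tm.fst (Tm.var 0)) (Tm.var 9)
        (Tm.var 7)) (Tm.var 8)
  · refine (hO.comp (fun i => match i with
      | 0 => fun _ u => u 4 | 1 => fun _ u => u 5 | 2 => fun _ u => snd (u 0)
      | 3 => fun _ u => u 1 | n + 4 => fun _ u => u (n + 10)) ?_).congr ?_
    · intro i
      rcases i with _ | _ | _ | _ | n
      · exact Tm.var _
      · exact Tm.var _
      · exact Tm.snd (Tm.var 0)
      · exact Tm.var _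
      · exact Tm.var _
    · intro M k w hw
      congr 1
      funext i
      rcases i with _ | _ | _ | _ | n <;> rfl

/-- a dense set: `w = (c, I, r, v, W)` -/
noncomputable def Dn (w : ℕ → V) : V :=
  (w 0).sep fun q => ∃ u' ∈ w 0, (∀ z ∈ u', fst z ∈ w 1) ∧
    ZFSet.pair q (cat (w 1) u' (w 3)) ∈ w 2 ∧ cat (w 1) u' (w 3) ∈ w 4

theorem tm_Dn (hPC : T_PC) : Tm ZFm (fun _ w => Dn w) := by
  refine (Tm.sep (R := fun _ w => ∃ u' ∈ w 1, (∀ z ∈ u', fst z ∈ w 2) ∧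
    ZFSet.pair (w 0) (cat (w 2) u' (w 4)) ∈ w 3 ∧ cat (w 2) u' (w 4) ∈ w 5) ?_
    (Tm.var 0)).congr fun M k w hw => rfl
  refine (Dfb.bex (R := fun _ w => (∀ z ∈ w 0, fst z ∈ w 3) ∧
    ZFSet.pair (w 1) (cat (w 3) (w 0) (w 5)) ∈ w 4 ∧ cat (w 3) (w 0) (w 5) ∈ w 6) ktr_zfm
    (Tm.var 1) ?_).congr fun M k w hw => Iff.rfl
  have hc : Tm ZFm (fun _ w => cat (w 3) (w 0) (w 5)) :=
    Tm.at3 (F := fun _ x y z => cat x y z) hPC.2.2.2.1 (Tm.var 3) (Tm.var 0) (Tm.var 5)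
  refine Dfb.and ?_ ((Dfb.mem (Tm.pair (Tm.var 1) hc) (Tm.var 4)).and (Dfb.mem hc (Tm.var 6)))
  exact (Dfb.ball (R := fun _ w => fst (w 0) ∈ w 4) ktr_zfm (Tm.var 0)
    (Dfb.mem (Tm.fst (Tm.var 0)) (Tm.var 4))).congr fun M k w hw => Iff.rfl

end CAA.H75
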