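import Pool.Agent.H75.CA.CGa

/-! MF, preparation: definability. -/

set_option linter.unusedVariables false

open Ordinal Order Set
open scoped ZFSet

namespace CAA.H75

open SF CAA

/-- collection for definable relations -/
theorem coll_dfb {M : V → Prop} (k : ZFm M) {R : (V → Prop) → (ℕ → V) → Prop} (hR : Dfb ZFm R)
    (v : ℕ → V) (hv : In M v) (a : V) (ha : M a) (h : ∀ x ∈ a, ∃ y, M y ∧ R M (cons y (cons x v))) :
    ∃ b, M b ∧ ∀ x ∈ a, ∃ y ∈ b, R M (cons y (cons x v)) := by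
  obtain ⟨φ, hφ⟩ := hR
  obtain ⟨b, hb, hb2⟩ := k.coll φ v a hv ha (fun x hx => by
    obtain ⟨y, hy, hy2⟩ := h x hx
    exact ⟨y, hy, (hφ M k _ (In.cons (In.cons hv (k.trans _ ha x hx)) hy)).2 hy2⟩)
  refine ⟨b, hb, fun x hx => ?_⟩
  obtain ⟨y, hy, hy2⟩ := hb2 x hx
  exact ⟨y, hy, (hφ M k _ (In.cons (In.cons hv (k.trans _ ha x hx)) (k.trans _ hb y hy))).1 hy2⟩

/-- `w = (e, j, G, x, κ, tf, c, cf)`: `e` is an index of `x` for the level `cf(j)` -/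
def Rc (ix : V → V → V) (w : ℕ → V) : Prop :=
  Ct ix (w 4) (w 5) (w 6) (app (w 7) (w 1)) (w 0) (w 2) = w 3 ∧
  IsPr (w 0) ∧ IsOrd (fst (w 0)) ∧ IsOrd (snd (w 0))

theorem dfb_Rc (hPC : T_PC) {ix : V → V → V} (hix : IsIx ix) : Dfb ZFm (fun _ w => Rc ix w) :=
  (Dfb.eq (tm_Ct hPC hix (Tm.var 4) (Tm.var 5) (Tm.var 6) (Tm.app (Tm.var 7) (Tm.var 1))
    (Tm.var 0) (Tm.var 2)) (Tm.var 3)).and ((Dfb.isPr (Tm.var 0)).and
      ((Dfb.isOrd (Tm.fst (Tm.var 0))).and (Dfb.isOrd (Tm.snd (Tm.var 0)))))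

/-- `w = (G, j, e, κ, tf, c, cf, α0, e0)` -/
def Re (ix : V → V → V) (w : ℕ → V) : Prop :=
  Ct ix (w 3) (w 4) (w 5) (app (w 6) (w 1)) (w 2) (w 0) =
    Ct ix (w 3) (w 4) (w 5) (w 7) (w 8) (w 0)

theorem dfb_Re (hPC : T_PC) {ix : V → V → V} (hix : IsIx ix) : Dfb ZFm (fun _ w => Re ix w) :=
  Dfb.eq (tm_Ct hPC hix (Tm.var 3) (Tm.var 4) (Tm.var 5) (Tm.app (Tm.var 6) (Tm.var 1))
    (Tm.var 2) (Tm.var 0)) (tm_Ct hPC hix (Tm.var 3) (Tm.var 4) (Tm.var 5) (Tm.var 7)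
    (Tm.var 8) (Tm.var 0))

/-- the relation from which the function `f` is chosen: `w = (ν, G, T, OO, x, κ, tf, c, cf)` -/
noncomputable def Rt (ix : V → V → V) (w : ℕ → V) : V :=
  (ZFSet.prod (w 0) (w 1)).sep fun t => ∃ e ∈ w 2,
    Ct ix (w 5) (w 6) (w 7) (app (w 8) (fst t)) e (w 1) = w 4 ∧
    snd t ∈ app (w 3) (ZFSet.pair (fst t) e)

theorem tm_Rt (hPC : T_PC) {ix : V → V → V} (hix : IsIx ix) : Tm ZFm (fun _ w => Rt ix w) := by
  refine (Tm.sep (R := fun _ w => ∃ e ∈ w 3,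
    Ct ix (w 6) (w 7) (w 8) (app (w 9) (fst (w 0))) e (w 2) = w 5 ∧
    snd (w 0) ∈ app (w 4) (ZFSet.pair (fst (w 0)) e)) ?_
    (Tm.prod (Tm.var 0) (Tm.var 1))).congr fun M k w hw => rfl
  refine (Dfb.bex (R := fun _ w => Ct ix (w 7) (w 8) (w 9) (app (w 10) (fst (w 1))) (w 0) (w 3) =
    w 6 ∧ snd (w 1) ∈ app (w 5) (ZFSet.pair (fst (w 1)) (w 0))) ktr_zfm (Tm.var 3) ?_).congr
      fun M k w hw => Iff.rfl
  exact (Dfb.eq (tm_Ct hPC hix (Tm.var 7) (Tm.var 8) (Tm.var 9)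
    (Tm.app (Tm.var 10) (Tm.fst (Tm.var 1))) (Tm.var 0) (Tm.var 3)) (Tm.var 6)).and
    (Dfb.mem (Tm.snd (Tm.var 1)) (Tm.app (Tm.var 5) (Tm.pair (Tm.fst (Tm.var 1)) (Tm.var 0))))

/-- the forcing sets as a family: `w = (J, c, r, Par)` -/
noncomputable def Ot (O : (V → Prop) → (ℕ → V) → V) (M : V → Prop) (w : ℕ → V) : V :=
  resS (w 0) fun t => O M (cons (w 1) (cons (w 2) (cons (fst t) (cons (snd t)
    fun n => w (n + 3)))))

theorem tm_Ot {O : (V → Prop) → (ℕ → V) → V} (hO : Tm ZFm O) : Tm ZFm (Ot O) := by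
  refine (Tm.resS (g := fun M u => O M (cons (u 2) (cons (u 3) (cons (fst (u 0))
    (cons (snd (u 0)) fun n => u (n + 4)))))) (Tm.var 0) ?_).congr fun M k w hw => rfl
  refine (hO.comp (fun i => match i with
    | 0 => fun _ u => u 2 | 1 => fun _ u => u 3 | 2 => fun _ u => fst (u 0)
    | 3 => fun _ u => snd (u 0) | n + 4 => fun _ u => u (n + 4)) ?_).congr ?_
  · intro i
    rcases i with _ | _ | _ | _ | n
    · exact Tm.var _
    · exact Tm.var _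
    · exact Tm.fst (Tm.var 0)
    · exact Tm.snd (Tm.var 0)
    · exact Tm.var _
  · intro M k w hw
    congr 1
    funext i
    rcases i with _ | _ | _ | _ | n <;> rfl

/-- `w = (g, ζ, κ, tf, H, aβ, S, α0, e0)` -/
def Rp (ix : V → V → V) (F : V → V → V → V → V → V → V → V) (w : ℕ → V) : Prop :=
  w 1 ∈ ix (F (w 2) (w 3) (w 4) (w 5) (w 6) (w 0) (w 7)) (w 8)

theorem dfb_Rp {ix : V → V → V} (hix : IsIx ix) {F : V → V → V → V → V → V → V → V}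
    (hF : Tm ZFm (fun _ v => F (v 0) (v 1) (v 2) (v 3) (v 4) (v 5) (v 6))) :
    Dfb ZFm (fun _ w => Rp ix F w) := by
  refine Dfb.mem (Tm.var 1) (Tm.at2 (F := fun _ x y => ix x y) hix.1 ?_ (Tm.var 8))
  refine (hF.comp (args [fun _ u => u 2, fun _ u => u 3, fun _ u => u 4, fun _ u => u 5,
    fun _ u => u 6, fun _ u => u 0, fun _ u => u 7]) (tm_args _ (by
    intro a ha
    simp only [List.mem_cons, List.not_mem_nil, or_false] at ha
    rcases ha with rfl | rfl | rfl | rfl | rfl | rfl | rfl <;> exact Tm.var _))).congr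
      fun M k w hw => rfl

/-- the set in the model `B_β`: `w = (η, c, r, r0, Par)` -/
noncomputable def Et (O : (V → Prop) → (ℕ → V) → V) (M : V → Prop) (w : ℕ → V) : V :=
  (w 0).sep fun ζ => ∃ p ∈ w 1, ZFSet.pair p (w 3) ∈ w 2 ∧
    p ∈ O M (cons (w 1) (cons (w 2) (cons ζ fun n => w (n + 4))))

theorem tm_Et {O : (V → Prop) → (ℕ → V) → V} (hO : Tm ZFm O) : Tm ZFm (Et O) := by
  refine (Tm.sep (R := fun M u => ∃ p ∈ u 2, ZFSet.pair p (u 4) ∈ u 3 ∧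
    p ∈ O M (cons (u 2) (cons (u 3) (cons (u 0) fun n => u (n + 5))))) ?_ (Tm.var 0)).congr
      fun M k w hw => rfl
  refine (Dfb.bex (R := fun M u => ZFSet.pair (u 0) (u 5) ∈ u 4 ∧
    u 0 ∈ O M (cons (u 3) (cons (u 4) (cons (u 1) fun n => u (n + 6))))) ktr_zfm (Tm.var 2)
    ?_).congr fun M k w hw => Iff.rfl
  refine (Dfb.mem (Tm.pair (Tm.var 0) (Tm.var 5)) (Tm.var 4)).and (Dfb.mem (Tm.var 0)
    ((hO.comp (fun i => match i with
    | 0 => fun _ u => u 3 | 1 => fun _ u => u 4 | 2 => fun _ u => u 1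
    | n + 3 => fun _ u => u (n + 6)) ?_).congr ?_))
  · intro i
    rcases i with _ | _ | _ | n <;> exact Tm.var _
  · intro M k w hw
    congr 1
    funext i
    rcases i with _ | _ | _ | n <;> rfl

/-- the places of level in `[α0, β)`: `w = (κ, tf, α0, β)` -/
noncomputable def St (w : ℕ → V) : V :=
  (w 0).sep fun i => w 2 ⊆ fst (app (w 1) i) ∧ fst (app (w 1) i) ∈ w 3

theorem tm_St : Tm ZFm (fun _ w => St w) := by
  refine (Tm.sep (R := fun _ w => w 3 ⊆ fst (app (w 2) (w 0)) ∧ fst (app (w 2) (w 0)) ∈ w 4) ?_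
    (Tm.var 0)).congr fun M k w hw => rfl
  have h1 : Tm ZFm (fun _ w => fst (app (w 2) (w 0))) := Tm.fst (Tm.app (Tm.var 2) (Tm.var 0))
  exact (Dfb.subset (Tm.var 3) h1).and (Dfb.mem h1 (Tm.var 4))

end CAA.H75
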