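import Pool.Agent.H75.CA.MFa

/-! MF: the choice of the conditions which force the equalities. -/

set_option linter.unusedVariables false

open Ordinal Order Set
open scoped ZFSet

namespace CAA.H75

open SF CAA

/-- `O(j, e)`: the set of the conditions which force that `e` at the level `c(j)` and `e0` at the
level `α0` are indices of the same set -/
noncomputable def Oje (O : (V → Prop) → (ℕ → V) → V) (D : Dat) (cf e0 : V)
    (α0 : Ordinal.{0}) (j e : V) : V :=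
  O D.M (cons D.c (cons D.r (cons j (cons e (cons D.κ.toZFSet (cons D.tf (cons D.c
    (cons cf (cons α0.toZFSet fun _ => e0)))))))))

theorem choose_f (hPC : T_PC) (hPE : T_PE) (hPF : T_PF) (hCF : T_CF) (hDS : T_DS) (hFI : T_FI)
    (hFJ : T_FJ) (hFL : T_FL) {ix : V → V → V} (hix : IsIx ix) :
    ∃ O : (V → Prop) → (ℕ → V) → V, ∀ D : Dat, D.Ok → ∀ G, D.Gn G → ∀ β < D.κ,
    ∀ x, (∀ α < β, x ∈ D.B G α) →
    ∀ ν < D.κ, ∀ cf, D.M cf → ZFSet.IsFunc ν.toZFSet β.toZFSet cf →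
    ∀ α0 < β, ∃ e0 f, D.M e0 ∧ x = ix (D.a G α0) e0 ∧ Ext D.M G f ∧
      ∀ j < ν, ∃ ξ < β, app cf j.toZFSet = ξ.toZFSet ∧ app f j.toZFSet ∈ G ∧
        ∃ e, D.M e ∧ ix (D.a G ξ) e = x ∧
          ∀ G', D.Gn G' → app f j.toZFSet ∈ G' → ix (D.a G' ξ) e = ix (D.a G' α0) e0 := by
  obtain ⟨O, tO, hO⟩ := hDS (fun _ w => Re ix w) (dfb_Re hPC hix)
  refine ⟨O, ?_⟩
  intro D hD G hG β hβ x hx ν hν cf hMcf hcf α0 hα0
  have hgrd := hD.grd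
  have k : ZFm D.M := hgrd.zfc.toZFm
  have hctb : {x | D.M x}.Countable := hgrd.ctb
  obtain ⟨po, Mc, Mr, -⟩ := hPF D hD
  have hκθ : D.κ < D.θ := hgrd.κχ.trans hgrd.χθ
  have hMo : ∀ α < D.θ, D.M α.toZFSet := fun α hα => (hgrd.ord α).2 hα
  have hMκ : ∀ α < D.κ, D.M α.toZFSet := fun α hα => hMo α (hα.trans hκθ)
  have hMtf : D.M D.tf := Lh_mono hgrd.χθ.le hD.tM
  -- indices
  have hind : ∀ ξ < β, ∃ e1 e2 : Ordinal.{0}, e1 < D.θ ∧ e2 < D.θ ∧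
      ix (D.a G ξ) (ZFSet.pair e1.toZFSet e2.toZFSet) = x := by
    intro ξ hξ
    obtain ⟨hBz, haB, -, -, -, hBo, -⟩ := (hCF D hD G hG).1 ξ (hξ.trans hβ)
    obtain ⟨ρ, hρ, hxρ⟩ := (mem_Lh_limit hgrd.lim).1 (hx ξ hξ)
    obtain ⟨e1, e2, he1, he2, he⟩ := hix.2 (· ∈ D.B G ξ) hBz.toZFm (D.a G ξ) haB x
      ⟨ρ, (hBo ρ).2 hρ, hxρ⟩
    exact ⟨e1, e2, (hBo e1).1 he1, (hBo e2).1 he2, he⟩
  obtain ⟨e1, e2, he1, he2, he⟩ := hind α0 hα0
  set e0 := ZFSet.pair e1.toZFSet e2.toZFSet with he0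
  have hMe0 : D.M e0 := k.mpair (hMo _ he1) (hMo _ he2)
  let Par : ℕ → V := cons D.κ.toZFSet (cons D.tf (cons D.c (cons cf (cons α0.toZFSet
    fun _ => e0))))
  have hPar : In D.M Par := In.cons (In.cons (In.cons (In.cons (In.cons (fun _ => hMe0)
    (hMκ _ (hα0.trans hβ))) hMcf) Mc) hMtf) (hMo _ hκθ)
  have hQ : ∀ j e, D.M j → D.M e → RegO D.c D.r (Oje O D cf e0 α0 j e) ∧
      (∀ G, D.Gn G → (Re ix (cons G (cons j (cons e Par))) ↔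
        ∃ p ∈ G, p ∈ Oje O D cf e0 α0 j e)) ∧
      ∀ p ∈ D.c, (p ∈ Oje O D cf e0 α0 j e ↔
        ∀ G, D.Gn G → p ∈ G → Re ix (cons G (cons j (cons e Par)))) := by
    intro j e hj he
    obtain ⟨h1, h2, h3⟩ := hO D.M D.c D.r (cons j (cons e Par)) k Mc Mr po
      (In.cons (In.cons hPar he) hj)
    exact ⟨h1, h2, h3 hctb⟩
  have hRe : ∀ G' ξ j e, app cf j = Ordinal.toZFSet ξ →
      (Re ix (cons G' (cons j (cons e Par))) ↔ ix (D.a G' ξ) e = ix (D.a G' α0) e0) := by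
    intro G' ξ j e hj
    show Ct ix D.κ.toZFSet D.tf D.c (app cf j) e G' = _ ↔ _
    rw [hj]
    exact Iff.rfl
  have hcf2 : ∀ j < ν, ∃ ξ < β, app cf j.toZFSet = ξ.toZFSet := by
    intro j hj
    obtain ⟨ξ, hξ, h⟩ := Ordinal.mem_toZFSet_iff.1
      (app_mem hcf (Ordinal.toZFSet_mem_toZFSet_iff.2 hj))
    exact ⟨ξ, hξ, h.symm⟩
  -- the extension
  obtain ⟨kN, hMN, hNG⟩ := hFI D.M D.c D.r G k Mc Mr po hG
  have hN := hFJ D.M D.c D.r G hgrd.zfc Mc Mr po hG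
  have hNx : Ext D.M G x := by
    obtain ⟨-, -, -, -, h, -⟩ := (hCF D hD G hG).1 α0 (hα0.trans hβ)
    exact h x (hx α0 hα0)
  have hNν : Ext D.M G ν.toZFSet := hMN _ (hMκ ν hν)
  obtain ⟨b, hb, hb2⟩ := coll_dfb kN (dfb_Rc hPC hix) (cons G (cons x (cons D.κ.toZFSet
    (cons D.tf (cons D.c fun _ => cf))))) (In.cons (In.cons (In.cons (In.cons (In.cons
      (fun _ => hMN _ hMcf) (hMN _ Mc)) (hMN _ hMtf)) (hMN _ (hMo _ hκθ))) hNx) hNG)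
    ν.toZFSet hNν (by
      intro j hj
      obtain ⟨j', hj', rfl⟩ := Ordinal.mem_toZFSet_iff.1 hj
      obtain ⟨ξ, hξ, h1⟩ := hcf2 j' hj'
      obtain ⟨e1, e2, g1, g2, g3⟩ := hind ξ hξ
      refine ⟨ZFSet.pair e1.toZFSet e2.toZFSet, hMN _ (k.mpair (hMo _ g1) (hMo _ g2)), ?_,
        ⟨_, _, rfl⟩, ?_, ?_⟩
      · show Ct ix D.κ.toZFSet D.tf D.c (app cf j'.toZFSet) _ G = x
        rw [h1]
        exact g3
      · show IsOrd (fst (ZFSet.pair e1.toZFSet e2.toZFSet))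
        rw [fst_pair]
        exact ⟨_, rfl⟩
      · show IsOrd (snd (ZFSet.pair e1.toZFSet e2.toZFSet))
        rw [snd_pair]
        exact ⟨_, rfl⟩)
  -- the bound
  have hρN : Ext D.M G b.rank.toZFSet := hFL.1.1 (Ext D.M G) kN (fun _ => b) (fun _ => hb)
  have hMρ : D.M b.rank.toZFSet := hFL.2.2 D.M G b.rank k hρN
  let T : V := ZFSet.prod b.rank.toZFSet b.rank.toZFSet
  have hMT : D.M T := (Tm.prod (Tm.var 0) (Tm.var 0)).1 D.M k (fun _ => b.rank.toZFSet)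
    (fun _ => hMρ)
  have hb3 : ∀ j < ν, ∃ e ∈ T, Ct ix D.κ.toZFSet D.tf D.c (app cf j.toZFSet) e G = x := by
    intro j hj
    obtain ⟨e, heb, h1, ⟨y, z, h2⟩, h3, h4⟩ := hb2 _ (Ordinal.toZFSet_mem_toZFSet_iff.2 hj)
    have h3 : IsOrd (fst e) := h3
    have h4 : IsOrd (snd e) := h4
    have h2 : e = ZFSet.pair y z := h2
    rw [h2, fst_pair] at h3
    rw [h2, snd_pair] at h4
    obtain ⟨a1, rfl⟩ := h3
    obtain ⟨a2, rfl⟩ := h4
    refine ⟨e, ?_, h1⟩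
    have h5 := ZFSet.rank_lt_of_mem heb
    rw [h2]
    refine ZFSet.pair_mem_prod.2 ⟨Ordinal.toZFSet_mem_toZFSet_iff.2 ?_,
      Ordinal.toZFSet_mem_toZFSet_iff.2 ?_⟩
    · have h6 := rank_lt_pair_left a1.toZFSet a2.toZFSet
      rw [Ordinal.rank_toZFSet] at h6
      rw [h2] at h5
      exact h6.trans h5
    · have h6 := rank_lt_pair_right a1.toZFSet a2.toZFSet
      rw [Ordinal.rank_toZFSet] at h6
      rw [h2] at h5
      exact h6.trans h5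
  -- the family of the forcing sets
  have hMJ : D.M (ZFSet.prod ν.toZFSet T) := (Tm.prod (Tm.var 0) (Tm.var 1)).1 D.M k
    (cons ν.toZFSet fun _ => T) (In.cons (fun _ => hMT) (hMκ ν hν))
  let OO : V := Ot O D.M (cons (ZFSet.prod ν.toZFSet T) (cons D.c (cons D.r Par)))
  have hMOO : D.M OO := (tm_Ot tO).1 D.M k _ (In.cons (In.cons (In.cons hPar Mr) Mc) hMJ)
  have hOO : ∀ j e, ZFSet.pair j e ∈ ZFSet.prod ν.toZFSet T →
      app OO (ZFSet.pair j e) = Oje O D cf e0 α0 j e := by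
    intro j e h
    show app (resS (ZFSet.prod ν.toZFSet T) fun t => Oje O D cf e0 α0 (fst t) (snd t)) _ = _
    rw [app_resS h, fst_pair, snd_pair]
  let RR : V := Rt ix (cons ν.toZFSet (cons G (cons T (cons OO (cons x (cons D.κ.toZFSet
    (cons D.tf (cons D.c fun _ => cf))))))))
  have hNRR : Ext D.M G RR := (tm_Rt hPC hix).1 (Ext D.M G) kN _
    (In.cons (In.cons (In.cons (In.cons (In.cons (In.cons (In.cons (In.cons
      (fun _ => hMN _ hMcf) (hMN _ Mc)) (hMN _ hMtf)) (hMN _ (hMo _ hκθ))) hNx) (hMN _ hMOO))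
      (hMN _ hMT)) hNG) hNν)
  have hRR : ∀ j p, ZFSet.pair j p ∈ RR ↔ (j ∈ ν.toZFSet ∧ p ∈ G) ∧ ∃ e ∈ T,
      Ct ix D.κ.toZFSet D.tf D.c (app cf j) e G = x ∧ p ∈ app OO (ZFSet.pair j e) := by
    intro j p
    show ZFSet.pair j p ∈ (ZFSet.prod ν.toZFSet G).sep (fun t => ∃ e ∈ T,
      Ct ix D.κ.toZFSet D.tf D.c (app cf (fst t)) e G = x ∧
      snd t ∈ app OO (ZFSet.pair (fst t) e)) ↔ _
    rw [ZFSet.mem_sep, ZFSet.pair_mem_prod]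
    simp only [fst_pair, snd_pair]
  have hMTe : ∀ e ∈ T, D.M e := fun e he => k.trans _ hMT e he
  obtain ⟨f, hf, hff, hf2⟩ := hPE (Ext D.M G) hN ν.toZFSet G RR hNν hNG hNRR (by
    intro j hj
    obtain ⟨j', hj', rfl⟩ := Ordinal.mem_toZFSet_iff.1 hj
    obtain ⟨e, heT, he2⟩ := hb3 j' hj'
    obtain ⟨ξ, hξ, h1⟩ := hcf2 j' hj'
    have h2 : Re ix (cons G (cons j'.toZFSet (cons e Par))) := by
      rw [hRe G ξ _ e h1, he]
      rw [h1] at he2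
      exact he2
    obtain ⟨p, hp, hp2⟩ := ((hQ j'.toZFSet e (k.trans _ (hMκ ν hν) _ hj) (hMTe e heT)).2.1
      G hG).1 h2
    refine ⟨p, hp, (hRR _ _).2 ⟨⟨hj, hp⟩, e, heT, he2, ?_⟩⟩
    rw [hOO _ _ (ZFSet.pair_mem_prod.2 ⟨hj, heT⟩)]
    exact hp2)
  refine ⟨e0, f, hMe0, he.symm, hf, fun j hj => ?_⟩
  obtain ⟨ξ, hξ, h1⟩ := hcf2 j hj
  have hj' : j.toZFSet ∈ ν.toZFSet := Ordinal.toZFSet_mem_toZFSet_iff.2 hj
  obtain ⟨⟨-, h2⟩, e, heT, h3, h4⟩ := (hRR _ _).1 (hf2 _ hj')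
  rw [hOO _ _ (ZFSet.pair_mem_prod.2 ⟨hj', heT⟩)] at h4
  refine ⟨ξ, hξ, h1, h2, e, hMTe e heT, ?_, fun G' hG' hp => ?_⟩
  · rw [h1] at h3
    exact h3
  · have h5 := ((hQ j.toZFSet e (k.trans _ (hMκ ν hν) _ hj') (hMTe e heT)).2.2 _
      (hG.1.sub h2)).1 h4 G' hG' hp
    exact (hRe G' ξ _ e h1).1 h5

end CAA.H75
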